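import Pool.Agent.H266.FN.Expl

set_option autoImplicit false

/-!
# Separation of the faces of a convex body from an interior point: the dual of `SimplePolytopes`

The first part (polar bodies, coverings of the polar body give separating hyperplanes) is a copy of
the module `Pool.Agent.H234.Sep.Polar` of helper234.
-/

open Metric Set Module
open scoped RealInnerProductSpace InnerProductSpace Pointwise

namespace Pool.Agent.H266.FN.Dual

variable {d : ℕ}

/-- The polar body of `K` with respect to the point `o`. -/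
def Pol (K : Set (EuclideanSpace ℝ (Fin d))) (o : EuclideanSpace ℝ (Fin d)) : Set (EuclideanSpace ℝ (Fin d)) := {v | ∀ y ∈ K, ⟪v, y - o⟫_ℝ ≤ 1}

theorem pol_convex (K : Set (EuclideanSpace ℝ (Fin d))) (o : EuclideanSpace ℝ (Fin d)) : Convex ℝ (Pol K o) := by
  intro v hv w hw a b ha hb hab y hy
  rw [inner_add_left, real_inner_smul_left, real_inner_smul_left]
  nlinarith [hv y hy, hw y hy]

theorem pol_closed (K : Set (EuclideanSpace ℝ (Fin d))) (o : EuclideanSpace ℝ (Fin d)) : IsClosed (Pol K o) := by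
  have : Pol K o = ⋂ y ∈ K, {v | ⟪v, y - o⟫_ℝ ≤ 1} := by
    ext v; simp [Pol]
  rw [this]
  refine isClosed_biInter fun y _ => isClosed_le ?_ continuous_const
  exact continuous_id.inner continuous_const

theorem ball_in {K : Set (EuclideanSpace ℝ (Fin d))} {o : EuclideanSpace ℝ (Fin d)} (ho : o ∈ interior K) :
    ∃ r > 0, closedBall o r ⊆ K := by
  obtain ⟨r, hr, h⟩ := Metric.isOpen_iff.mp isOpen_interior o ho
  exact ⟨r / 2, by positivity, (closedBall_subset_ball (by linarith)).trans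
    (h.trans interior_subset)⟩

theorem pol_bound {K : Set (EuclideanSpace ℝ (Fin d))} {o : EuclideanSpace ℝ (Fin d)} {r : ℝ} (hr : 0 < r) (hrK : closedBall o r ⊆ K) :
    ∀ v ∈ Pol K o, ‖v‖ ≤ 1 / r := by
  intro v hv
  rcases eq_or_ne v 0 with rfl | hv0
  · simp; positivity
  have hn : 0 < ‖v‖ := norm_pos_iff.mpr hv0
  have hy : o + (r / ‖v‖) • v ∈ K := by
    apply hrK
    rw [mem_closedBall, dist_eq_norm, add_sub_cancel_left, norm_smul, Real.norm_eq_abs,
      abs_of_pos (by positivity), div_mul_cancel₀ _ hn.ne']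
  have h := hv _ hy
  rw [add_sub_cancel_left, real_inner_smul_right, real_inner_self_eq_norm_sq] at h
  rw [le_div_iff₀ hr]
  have e : r / ‖v‖ * ‖v‖ ^ 2 = ‖v‖ * r := by field_simp
  linarith

theorem pol_compact {K : Set (EuclideanSpace ℝ (Fin d))} {o : EuclideanSpace ℝ (Fin d)} (ho : o ∈ interior K) : IsCompact (Pol K o) := by
  obtain ⟨r, hr, hrK⟩ := ball_in ho
  refine Metric.isCompact_of_isClosed_isBounded (pol_closed K o) ?_
  refine (isBounded_iff_subset_closedBall 0).mpr ⟨1 / r, fun v hv => ?_⟩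
  simpa using pol_bound hr hrK v hv

theorem pol_int {K : Set (EuclideanSpace ℝ (Fin d))} {o : EuclideanSpace ℝ (Fin d)} (hKc : IsCompact K) :
    (0 : EuclideanSpace ℝ (Fin d)) ∈ interior (Pol K o) := by
  obtain ⟨R, hR⟩ : ∃ R : ℝ, 0 ≤ R ∧ ∀ y ∈ K, ‖y - o‖ ≤ R := by
    obtain ⟨R, hR⟩ := hKc.isBounded.subset_closedBall o
    exact ⟨max R 0, le_max_right _ _, fun y hy => le_max_of_le_left
      (by simpa [dist_eq_norm] using hR hy)⟩
  obtain ⟨hR0, hR⟩ := hR
  rw [mem_interior]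
  refine ⟨ball 0 (1 / (R + 1)), ?_, isOpen_ball, by simp; positivity⟩
  intro v hv y hy
  rw [mem_ball_zero_iff] at hv
  calc ⟪v, y - o⟫_ℝ ≤ ‖v‖ * ‖y - o‖ := real_inner_le_norm _ _
    _ ≤ 1 / (R + 1) * R := by
        gcongr
        exact hR y hy
    _ ≤ 1 := by
        rw [div_mul_eq_mul_div, one_mul, div_le_one (by positivity)]
        linarith

/-- At most `N` hyperplanes strictly separate every face of `K` from `o`. -/
def SepBy (K : Set (EuclideanSpace ℝ (Fin d))) (o : EuclideanSpace ℝ (Fin d)) (N : ℝ) : Prop :=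
  ∃ H : Finset ((EuclideanSpace ℝ (Fin d)) × ℝ), (H.card : ℝ) ≤ N ∧ (∀ h ∈ H, h.1 ≠ 0) ∧
    ∀ u x₀ : EuclideanSpace ℝ (Fin d), u ≠ 0 → x₀ ∈ K → (∀ y ∈ K, ⟪u, y⟫_ℝ ≤ ⟪u, x₀⟫_ℝ) →
      ∃ h ∈ H, ⟪h.1, o⟫_ℝ < h.2 ∧ ∀ x ∈ K, ⟪u, x⟫_ℝ = ⟪u, x₀⟫_ℝ → h.2 < ⟪h.1, x⟫_ℝ

theorem sep_of_cover {K : Set (EuclideanSpace ℝ (Fin d))} {o : EuclideanSpace ℝ (Fin d)} (ho : o ∈ interior K)
    (T : Finset (EuclideanSpace ℝ (Fin d))) (hT : Pol K o ⊆ ⋃ t ∈ T, (fun x => t + x) '' interior (Pol K o)) (N : ℝ)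
    (hN : (T.card : ℝ) ≤ N) : SepBy K o N := by
  classical
  obtain ⟨r, hr, hrK⟩ := ball_in ho
  have hPb := pol_bound hr hrK
  have hPk := pol_compact ho
  set P : Set (EuclideanSpace ℝ (Fin d)) := Pol K o with hP
  obtain ⟨δ, hδ, hleb⟩ : ∃ δ > 0, ∀ v ∈ P, ∃ t ∈ T, ball v δ ⊆ (fun x => t + x) '' interior P := by
    have hop : ∀ t : T, IsOpen ((fun x => (t : EuclideanSpace ℝ (Fin d)) + x) '' interior P) :=
      fun t => (Homeomorph.addLeft (t : EuclideanSpace ℝ (Fin d))).isOpenMap _ isOpen_interior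
    have hcov : P ⊆ ⋃ t : T, (fun x => (t : EuclideanSpace ℝ (Fin d)) + x) '' interior P := by
      intro v hv
      have h := hT hv
      simp only [Set.mem_iUnion] at h ⊢
      obtain ⟨t, ht, h⟩ := h
      exact ⟨⟨t, ht⟩, h⟩
    obtain ⟨δ, hδ, h⟩ := lebesgue_number_lemma_of_metric hPk hop hcov
    refine ⟨δ, hδ, fun v hv => ?_⟩
    obtain ⟨t, ht⟩ := h v hv
    exact ⟨t, t.2, ht⟩
  set ε : ℝ := δ / 2 * r with hε
  have hε0 : 0 < ε := by positivity
  refine ⟨(T.filter (fun t => t ≠ 0)).image (fun t => (t, ⟪t, o⟫_ℝ + ε / 2)), ?_, ?_, ?_⟩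
  · refine le_trans ?_ hN
    exact_mod_cast Finset.card_image_le.trans (Finset.card_filter_le _ _)
  · intro h hh
    rw [Finset.mem_image] at hh
    obtain ⟨t, ht, rfl⟩ := hh
    exact (Finset.mem_filter.mp ht).2
  · intro u x₀ hu hx₀ hmax
    have hun : 0 < ‖u‖ := norm_pos_iff.mpr hu
    -- the support function is positive
    have hpos : 0 < ⟪u, x₀ - o⟫_ℝ := by
      have hy : o + (r / ‖u‖) • u ∈ K := by
        apply hrK
        rw [mem_closedBall, dist_eq_norm, add_sub_cancel_left, norm_smul, Real.norm_eq_abs,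
          abs_of_pos (by positivity), div_mul_cancel₀ _ hun.ne']
      have h := hmax _ hy
      rw [inner_add_right, real_inner_smul_right, real_inner_self_eq_norm_sq] at h
      rw [inner_sub_right]
      have : 0 < r / ‖u‖ * ‖u‖ ^ 2 := by positivity
      linarith
    set c : ℝ := ⟪u, x₀ - o⟫_ℝ with hc
    have hvP : c⁻¹ • u ∈ P := by
      intro y hy
      rw [real_inner_smul_left, inv_mul_le_iff₀ hpos, mul_one, hc, inner_sub_right,
        inner_sub_right]
      linarith [hmax y hy]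
    obtain ⟨t, htT, ht⟩ := hleb _ hvP
    -- the key inequality
    have key : ∀ x ∈ K, ⟪u, x⟫_ℝ = ⟪u, x₀⟫_ℝ → ε ≤ ⟪t, x - o⟫_ℝ := by
      intro x hx hxu
      have h1 : ⟪c⁻¹ • u, x - o⟫_ℝ = 1 := by
        rw [real_inner_smul_left, inner_sub_right, hxu, ← inner_sub_right, ← hc,
          inv_mul_cancel₀ hpos.ne']
      have h2 : r ≤ ‖x - o‖ := by
        have h3 := real_inner_le_norm (c⁻¹ • u) (x - o)
        rw [h1] at h3
        have h4 := hPb _ hvP
        have h5 : 1 ≤ 1 / r * ‖x - o‖ := h3.trans (by gcongr)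
        rw [one_div, ← div_eq_inv_mul, le_div_iff₀ hr] at h5
        linarith
      have hxn : 0 < ‖x - o‖ := hr.trans_le h2
      have hz : c⁻¹ • u + (δ / 2 / ‖x - o‖) • (x - o) ∈ ball (c⁻¹ • u) δ := by
        rw [mem_ball, dist_eq_norm, add_sub_cancel_left, norm_smul, Real.norm_eq_abs,
          abs_of_pos (by positivity), div_mul_cancel₀ _ hxn.ne']
        linarith
      obtain ⟨p, hp, hpe⟩ := ht hz
      have hp' : ⟪p, x - o⟫_ℝ ≤ 1 := interior_subset hp x hx
      have hpe' : p = c⁻¹ • u + (δ / 2 / ‖x - o‖) • (x - o) - t := by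
        rw [← hpe]; simp
      rw [hpe', inner_sub_left, inner_add_left, h1, real_inner_smul_left,
        real_inner_self_eq_norm_sq] at hp'
      have e : δ / 2 / ‖x - o‖ * ‖x - o‖ ^ 2 = δ / 2 * ‖x - o‖ := by field_simp
      rw [e] at hp'
      have : ε ≤ δ / 2 * ‖x - o‖ := by
        rw [hε]; gcongr
      linarith
    have ht0 : t ≠ 0 := by
      rintro rfl
      have h := key x₀ hx₀ rfl
      rw [inner_zero_left] at h
      linarith
    refine ⟨(t, ⟪t, o⟫_ℝ + ε / 2), Finset.mem_image_of_mem _ (Finset.mem_filter.mpr ⟨htT, ht0⟩),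
      by simp only; linarith, fun x hx hxu => ?_⟩
    have h := key x hx hxu
    rw [inner_sub_right] at h
    simp only
    linarith

theorem mem_int_pol {K : Set (EuclideanSpace ℝ (Fin d))} {o w : EuclideanSpace ℝ (Fin d)}
    (hK : IsCompact K) (hKn : K.Nonempty) (h : ∀ y ∈ K, ⟪w, y - o⟫_ℝ < 1) :
    w ∈ interior (Pol K o) := by
  obtain ⟨R, hR0, hR⟩ : ∃ R : ℝ, 0 ≤ R ∧ ∀ y ∈ K, ‖y - o‖ ≤ R := by
    obtain ⟨R, hR⟩ := hK.isBounded.subset_closedBall o
    exact ⟨max R 0, le_max_right _ _, fun y hy => le_max_of_le_left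
      (by simpa [dist_eq_norm] using hR hy)⟩
  obtain ⟨y₀, hy₀, hmax⟩ := hK.exists_isMaxOn hKn
    (f := fun y => ⟪w, y - o⟫_ℝ) (by fun_prop)
  have h1 := h y₀ hy₀
  set m : ℝ := ⟪w, y₀ - o⟫_ℝ with hm
  rw [mem_interior]
  refine ⟨ball w ((1 - m) / (R + 1)), ?_, isOpen_ball, mem_ball_self (by
    apply div_pos <;> linarith)⟩
  intro v hv y hy
  rw [mem_ball, dist_eq_norm] at hv
  have h2 : ⟪w, y - o⟫_ℝ ≤ m := hmax hy
  have h3 : ⟪v - w, y - o⟫_ℝ ≤ 1 - m := by
    calc ⟪v - w, y - o⟫_ℝ ≤ ‖v - w‖ * ‖y - o‖ := real_inner_le_norm _ _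
      _ ≤ (1 - m) / (R + 1) * R := by
          gcongr
          exact hR y hy
      _ ≤ 1 - m := by
          rw [div_mul_eq_mul_div, div_le_iff₀ (by linarith)]
          nlinarith
  rw [inner_sub_left] at h3
  linarith

/-- each face of `K` is the convex hull of at most `n` points -/
def SmallFaces (n : ℕ) (K : Set (EuclideanSpace ℝ (Fin d))) : Prop :=
  ∀ u : EuclideanSpace ℝ (Fin d), u ≠ 0 → ∃ s : Finset (EuclideanSpace ℝ (Fin d)), s.card ≤ n ∧
    {x ∈ K | ∀ y ∈ K, ⟪u, y⟫_ℝ ≤ ⟪u, x⟫_ℝ} = convexHull ℝ (s : Set (EuclideanSpace ℝ (Fin d)))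

/-- each face of `K` is the convex hull of at most `n` points, and it is in a circular cone with
apex `o` and half-angle `arccos (1 / D)` -/
def NarrowFaces (n : ℕ) (D : ℝ) (K : Set (EuclideanSpace ℝ (Fin d)))
    (o : EuclideanSpace ℝ (Fin d)) : Prop :=
  ∀ u : EuclideanSpace ℝ (Fin d), u ≠ 0 → ∃ s : Finset (EuclideanSpace ℝ (Fin d)), s.card ≤ n ∧
    {x ∈ K | ∀ y ∈ K, ⟪u, y⟫_ℝ ≤ ⟪u, x⟫_ℝ} = convexHull ℝ (s : Set (EuclideanSpace ℝ (Fin d))) ∧
    ∃ b : EuclideanSpace ℝ (Fin d), ‖b‖ ≤ D ∧ ∀ y ∈ s, ‖y - o‖ ≤ ⟪b, y - o⟫_ℝ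

theorem narrow_mono {n m : ℕ} {D D' : ℝ} {K : Set (EuclideanSpace ℝ (Fin d))}
    {o : EuclideanSpace ℝ (Fin d)} (hn : n ≤ m) (hD : D ≤ D') (h : NarrowFaces n D K o) :
    NarrowFaces m D' K o := by
  intro u hu
  obtain ⟨s, h1, h2, b, h3, h4⟩ := h u hu
  exact ⟨s, h1.trans hn, h2, b, h3.trans hD, h4⟩

theorem narrow_of_balls {n : ℕ} {r R : ℝ} {K : Set (EuclideanSpace ℝ (Fin d))}
    {o : EuclideanSpace ℝ (Fin d)} (hr : 0 < r) (h1 : closedBall o r ⊆ K)
    (h2 : K ⊆ closedBall o R) (hF : SmallFaces n K) : NarrowFaces n (R / r) K o := by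
  intro u hu
  obtain ⟨s, hs, hsF⟩ := hF u hu
  have hun : 0 < ‖u‖ := norm_pos_iff.2 hu
  have hR : 0 ≤ R := by
    have := h2 (h1 (mem_closedBall_self hr.le))
    rwa [mem_closedBall, dist_self] at this
  refine ⟨s, hs, hsF, (R / (r * ‖u‖)) • u, ?_, fun y hy => ?_⟩
  · rw [norm_smul, Real.norm_eq_abs, abs_of_nonneg (by positivity)]
    refine le_of_eq ?_
    field_simp
  · have hyF : y ∈ {x ∈ K | ∀ y ∈ K, ⟪u, y⟫_ℝ ≤ ⟪u, x⟫_ℝ} := by
      rw [hsF]
      exact subset_convexHull ℝ _ hy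
    have hz : o + (r / ‖u‖) • u ∈ K := by
      apply h1
      rw [mem_closedBall, dist_eq_norm, add_sub_cancel_left, norm_smul, Real.norm_eq_abs,
        abs_of_pos (by positivity), div_mul_cancel₀ _ hun.ne']
    have h3 := hyF.2 _ hz
    rw [inner_add_right, real_inner_smul_right, real_inner_self_eq_norm_sq] at h3
    have h4 : r * ‖u‖ ≤ ⟪u, y - o⟫_ℝ := by
      have e : r / ‖u‖ * ‖u‖ ^ 2 = r * ‖u‖ := by field_simp
      rw [e] at h3
      rw [inner_sub_right]
      linarith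
    have h5 := h2 hyF.1
    rw [mem_closedBall, dist_eq_norm] at h5
    rw [real_inner_smul_left]
    calc ‖y - o‖ ≤ R := h5
      _ = R / (r * ‖u‖) * (r * ‖u‖) := by field_simp
      _ ≤ R / (r * ‖u‖) * ⟪u, y - o⟫_ℝ := by gcongr

theorem wide_pol {n : ℕ} {D : ℝ} {K : Set (EuclideanSpace ℝ (Fin d))}
    {o : EuclideanSpace ℝ (Fin d)} (hK : IsCompact K) (ho : o ∈ interior K)
    (hF : NarrowFaces n D K o) : Wide n D (Pol K o) := by
  classical
  intro x hx
  have hoK : o ∈ K := interior_subset ho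
  have hKn : K.Nonempty := ⟨o, hoK⟩
  have hxP : x ∈ Pol K o := (pol_closed K o).frontier_subset hx
  have hxi : x ∉ interior (Pol K o) := hx.2
  obtain ⟨R, hR, h2⟩ : ∃ R : ℝ, 0 < R ∧ ∀ y ∈ K, ‖y - o‖ ≤ R := by
    obtain ⟨R, hR⟩ := hK.isBounded.subset_closedBall o
    exact ⟨max R 1, lt_max_of_lt_right one_pos, fun y hy => le_max_of_le_left
      (by simpa [dist_eq_norm] using hR hy)⟩
  obtain ⟨y₀, hy₀, hmax⟩ := hK.exists_isMaxOn hKn
    (f := fun y => ⟪x, y - o⟫_ℝ) (by fun_prop)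
  have hmax' : ∀ y ∈ K, ⟪x, y - o⟫_ℝ ≤ ⟪x, y₀ - o⟫_ℝ := fun y hy => hmax hy
  have hy1 : ⟪x, y₀ - o⟫_ℝ = 1 := by
    refine le_antisymm (hxP y₀ hy₀) ?_
    by_contra hlt
    push Not at hlt
    exact hxi (mem_int_pol hK hKn fun y hy => (hmax' y hy).trans_lt hlt)
  have hx0 : x ≠ 0 := by
    rintro rfl
    rw [inner_zero_left] at hy1
    norm_num at hy1
  obtain ⟨s, hs, hsF, b, hbD, hb⟩ := hF x hx0
  have hface : ∀ z : EuclideanSpace ℝ (Fin d),
      z ∈ convexHull ℝ (s : Set (EuclideanSpace ℝ (Fin d))) ↔ z ∈ K ∧ ⟪x, z - o⟫_ℝ = 1 := by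
    intro z
    rw [← hsF]
    constructor
    · rintro ⟨hz, hz2⟩
      refine ⟨hz, le_antisymm (hxP z hz) ?_⟩
      have := hz2 y₀ hy₀
      rw [← hy1, inner_sub_right, inner_sub_right]
      linarith
    · rintro ⟨hz, hz2⟩
      refine ⟨hz, fun y hy => ?_⟩
      have := hxP y hy
      rw [← hz2, inner_sub_right, inner_sub_right] at this
      linarith
  have hsz : ∀ z ∈ s, z ∈ K ∧ ⟪x, z - o⟫_ℝ = 1 := fun z hz =>
    (hface z).1 (subset_convexHull ℝ _ hz)
  have hnz : ∀ z ∈ s, 0 < ‖z - o‖ := by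
    intro z hz
    rw [norm_pos_iff]
    intro h0
    have := (hsz z hz).2
    rw [h0, inner_zero_right] at this
    norm_num at this
  refine ⟨s.image (fun z => (‖z - o‖⁻¹) • (z - o)), Finset.card_image_le.trans hs, ?_, ?_, ?_⟩
  · intro u hu
    rw [Finset.mem_image] at hu
    obtain ⟨z, hz, rfl⟩ := hu
    refine ⟨?_, fun v hv => ?_⟩
    · rw [norm_smul, norm_inv, norm_norm, inv_mul_cancel₀ (hnz z hz).ne']
    · rw [real_inner_smul_left, real_inner_smul_left]
      have h3 := hv z (hsz z hz).1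
      have h4 := (hsz z hz).2
      rw [real_inner_comm] at h3 h4
      have := hnz z hz
      gcongr
      rw [h4]
      exact h3
  · refine ⟨b, hbD, ?_⟩
    intro u hu
    rw [Finset.mem_image] at hu
    obtain ⟨z, hz, rfl⟩ := hu
    rw [real_inner_smul_left, real_inner_comm, ← div_eq_inv_mul, le_div_iff₀ (hnz z hz), one_mul]
    exact hb z hz
  · intro v hv
    have hv' : ∀ z ∈ K, ⟪x, z - o⟫_ℝ = 1 → ⟪v, z - o⟫_ℝ < 0 := by
      intro z hz hz1
      have h3 : z ∈ convexHull ℝ (s : Set (EuclideanSpace ℝ (Fin d))) := (hface z).2 ⟨hz, hz1⟩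
      have h4 : convexHull ℝ (s : Set (EuclideanSpace ℝ (Fin d))) ⊆
          {z | ⟪v, z - o⟫_ℝ < 0} := by
        refine convexHull_min ?_ ?_
        · intro z hz
          have h5 := hv _ (Finset.mem_image_of_mem _ hz)
          rw [real_inner_smul_left] at h5
          have h6 := hnz z hz
          rw [mem_ofPred_eq, real_inner_comm]
          by_contra h7
          push Not at h7
          have : 0 ≤ ‖z - o‖⁻¹ * ⟪z - o, v⟫_ℝ := by positivity
          linarith
        · intro a ha b hb p q hp hq hpq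
          simp only [mem_ofPred_eq] at ha hb ⊢
          have e : p • a + q • b - o = p • (a - o) + q • (b - o) := by
            have : o = p • o + q • o := by rw [← add_smul, hpq, one_smul]
            rw [smul_sub, smul_sub]
            nth_rewrite 1 [this]
            abel
          rw [e, inner_add_right, real_inner_smul_right, real_inner_smul_right]
          rcases hp.eq_or_lt with rfl | hp
          · have : q = 1 := by linarith
            subst this
            simpa using hb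
          · nlinarith
      exact h4 h3
    set K' : Set (EuclideanSpace ℝ (Fin d)) := K ∩ {y | 0 ≤ ⟪v, y - o⟫_ℝ} with hK'
    have hK'c : IsCompact K' := hK.inter_right
      (isClosed_le continuous_const (by fun_prop))
    have hlt : ∀ y ∈ K', ⟪x, y - o⟫_ℝ < 1 := by
      rintro y ⟨hy, hy2⟩
      refine lt_of_le_of_ne (hxP y hy) fun h => ?_
      have := hv' y hy h
      simp only [mem_ofPred_eq] at hy2
      linarith
    have hK'n : K'.Nonempty := ⟨o, hoK, by simp⟩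
    obtain ⟨y₁, hy₁, hmax₁⟩ := hK'c.exists_isMaxOn hK'n
      (f := fun y => ⟪x, y - o⟫_ℝ) (by fun_prop)
    have hm1 := hlt y₁ hy₁
    set m : ℝ := ⟪x, y₁ - o⟫_ℝ with hm
    refine ⟨(1 - m) / (2 * ((‖v‖ + 1) * R)), ?_, mem_int_pol hK hKn fun y hy => ?_⟩
    · apply div_pos
      · linarith
      · positivity
    · set t : ℝ := (1 - m) / (2 * ((‖v‖ + 1) * R)) with ht
      have ht0 : 0 < t := by
        apply div_pos
        · linarith
        · positivity
      rw [inner_add_left, real_inner_smul_left]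
      by_cases h0 : 0 ≤ ⟪v, y - o⟫_ℝ
      · have h3 : ⟪x, y - o⟫_ℝ ≤ m := hmax₁ (⟨hy, h0⟩ : y ∈ K')
        have h4 : ⟪v, y - o⟫_ℝ ≤ (‖v‖ + 1) * R := by
          calc ⟪v, y - o⟫_ℝ ≤ ‖v‖ * ‖y - o‖ := real_inner_le_norm _ _
            _ ≤ (‖v‖ + 1) * R := by
                gcongr
                · linarith
                · exact h2 y hy
        have h5 : t * ⟪v, y - o⟫_ℝ ≤ (1 - m) / 2 := by
          calc t * ⟪v, y - o⟫_ℝ ≤ t * ((‖v‖ + 1) * R) := by gcongr
            _ = (1 - m) / 2 := by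
                rw [ht]
                field_simp
        linarith
      · push Not at h0
        have h3 := hxP y hy
        have : t * ⟪v, y - o⟫_ℝ < 0 := mul_neg_of_pos_of_neg ht0 h0
        linarith

/-- polytopes: if each face contains at most `n` of the points of the finite set `V` -/
theorem smallFaces_of_finset (n : ℕ) (V : Finset (EuclideanSpace ℝ (Fin d)))
    (h : ∀ u : EuclideanSpace ℝ (Fin d), u ≠ 0 →
      {v | v ∈ V ∧ ∀ w ∈ V, ⟪u, w⟫_ℝ ≤ ⟪u, v⟫_ℝ}.ncard ≤ n) :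
    SmallFaces n (convexHull ℝ (V : Set (EuclideanSpace ℝ (Fin d)))) := by
  classical
  intro u hu
  refine ⟨V.filter (fun v => ∀ w ∈ V, ⟪u, w⟫_ℝ ≤ ⟪u, v⟫_ℝ), ?_, ?_⟩
  · refine le_trans (le_of_eq ?_) (h u hu)
    rw [← Set.ncard_coe_finset]
    congr 1
    ext v
    simp
  · ext x
    constructor
    · rintro ⟨hx, hmax⟩
      obtain ⟨w, hw0, hw1, hwx⟩ := Finset.mem_convexHull'.1 hx
      have hle : ∀ v ∈ V, ⟪u, v⟫_ℝ ≤ ⟪u, x⟫_ℝ := fun v hv => hmax v (subset_convexHull ℝ _ hv)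
      have hsum : ∑ v ∈ V, w v * (⟪u, x⟫_ℝ - ⟪u, v⟫_ℝ) = 0 := by
        have e : ⟪u, x⟫_ℝ = ∑ v ∈ V, w v * ⟪u, v⟫_ℝ := by
          rw [← hwx, inner_sum]
          exact Finset.sum_congr rfl fun v _ => real_inner_smul_right _ _ _
        simp only [mul_sub]
        rw [Finset.sum_sub_distrib, ← Finset.sum_mul, hw1, one_mul, ← e, sub_self]
      have hz : ∀ v ∈ V, w v * (⟪u, x⟫_ℝ - ⟪u, v⟫_ℝ) = 0 :=
        (Finset.sum_eq_zero_iff_of_nonneg fun v hv =>
          mul_nonneg (hw0 v hv) (sub_nonneg.2 (hle v hv))).1 hsum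
      have hz' : ∀ v ∈ V, v ∉ V.filter (fun v => ∀ w ∈ V, ⟪u, w⟫_ℝ ≤ ⟪u, v⟫_ℝ) → w v = 0 := by
        intro v hv hvf
        rcases mul_eq_zero.1 (hz v hv) with h1 | h1
        · exact h1
        · refine absurd (Finset.mem_filter.2 ⟨hv, fun z hzV => ?_⟩) hvf
          have := hle z hzV
          linarith
      refine Finset.mem_convexHull'.2 ⟨w, fun v hv => hw0 v (Finset.mem_filter.1 hv).1, ?_, ?_⟩
      · rw [Finset.sum_subset (Finset.filter_subset _ _) hz', hw1]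
      · rw [Finset.sum_subset (Finset.filter_subset _ _)
          (fun v hv hvf => by rw [hz' v hv hvf, zero_smul]), hwx]
    · intro hx
      have h1 : ∀ w ∈ V, ⟪u, w⟫_ℝ ≤ ⟪u, x⟫_ℝ := by
        have h2 : convexHull ℝ ((V.filter (fun v => ∀ w ∈ V, ⟪u, w⟫_ℝ ≤ ⟪u, v⟫_ℝ) :
            Finset (EuclideanSpace ℝ (Fin d))) : Set (EuclideanSpace ℝ (Fin d))) ⊆
            {x | ∀ w ∈ V, ⟪u, w⟫_ℝ ≤ ⟪u, x⟫_ℝ} := by
          refine convexHull_min (fun v hv => (Finset.mem_filter.1 hv).2) ?_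
          intro a ha b hb p q hp hq hpq w hw
          rw [inner_add_right, real_inner_smul_right, real_inner_smul_right]
          have h3 := mul_le_mul_of_nonneg_left (ha w hw) hp
          have h4 := mul_le_mul_of_nonneg_left (hb w hw) hq
          have h5 : ⟪u, w⟫_ℝ = p * ⟪u, w⟫_ℝ + q * ⟪u, w⟫_ℝ := by rw [← add_mul, hpq, one_mul]
          linarith
        exact h2 hx
      refine ⟨convexHull_mono (fun v hv => (Finset.mem_filter.1 hv).1) hx, fun y hy => ?_⟩
      have h2 : convexHull ℝ (V : Set (EuclideanSpace ℝ (Fin d))) ⊆ {y | ⟪u, y⟫_ℝ ≤ ⟪u, x⟫_ℝ} := by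
        refine convexHull_min h1 ?_
        intro a ha b hb p q hp hq hpq
        simp only [mem_ofPred_eq] at ha hb ⊢
        rw [inner_add_right, real_inner_smul_right, real_inner_smul_right]
        have h3 := mul_le_mul_of_nonneg_left ha hp
        have h4 := mul_le_mul_of_nonneg_left hb hq
        have h5 : ⟪u, x⟫_ℝ = p * ⟪u, x⟫_ℝ + q * ⟪u, x⟫_ℝ := by rw [← add_mul, hpq, one_mul]
        linarith
      exact h2 hy

end Pool.Agent.H266.FN.Dual
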