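import Pool.Agent.H266.FN.Final

/-!
# Explicit dimension: `c(K) < 2^d` for all `d ≥ 850`
-/

set_option autoImplicit false

open MeasureTheory Set Metric
open scoped Pointwise RealInnerProductSpace ENNReal

namespace Pool.Agent.H266.FN

open Pool.Agent.H266.RP (E CoveredBy)

namespace Expl

theorem base_nat : (2 * 850 ^ 3 + 1) * 39 ^ 850 ≤ 40 ^ 850 := by
  decide +kernel

theorem base850 : 2 * ((850 : ℕ) : ℝ) ^ 3 + 1 ≤ (40 / 39) ^ 850 := by
  rw [div_pow, le_div_iff₀ (by positivity)]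
  exact_mod_cast base_nat

theorem cube (d : ℕ) (hd : 850 ≤ d) : 2 * (d : ℝ) ^ 3 + 1 ≤ (40 / 39) ^ d := by
  induction d, hd using Nat.le_induction with
  | base => exact base850
  | succ d hd ih =>
    have h1 : (850 : ℝ) ≤ d := by exact_mod_cast hd
    push_cast
    rw [pow_succ (40 / 39 : ℝ) d]
    have h2 : (2 * (d : ℝ) ^ 3 + 1) * (40 / 39) ≤ (40 / 39) ^ d * (40 / 39) :=
      mul_le_mul_of_nonneg_right ih (by norm_num)
    have h3 : 850 * (d : ℝ) ^ 2 ≤ (d : ℝ) ^ 3 := by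
      have := mul_le_mul_of_nonneg_right h1 (sq_nonneg (d : ℝ))
      calc 850 * (d : ℝ) ^ 2 ≤ d * (d : ℝ) ^ 2 := this
        _ = (d : ℝ) ^ 3 := by ring
    have h4 : 850 * (d : ℝ) ≤ (d : ℝ) ^ 2 := by
      rw [sq]
      exact mul_le_mul_of_nonneg_right h1 (by linarith)
    have h5 : 2 * ((d : ℝ) + 1) ^ 3 + 1 = 2 * (d : ℝ) ^ 3 + 6 * (d : ℝ) ^ 2 + 6 * d + 3 := by ring
    rw [h5]
    linarith

theorem lin (d : ℕ) (hd : 30 ≤ d) : 4001 * (d : ℝ) ≤ (27 / 14) ^ d := by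
  induction d, hd using Nat.le_induction with
  | base => norm_num
  | succ d hd ih =>
    have h1 : (30 : ℝ) ≤ d := by exact_mod_cast hd
    push_cast
    rw [pow_succ]
    have h2 : (4001 * (d : ℝ)) * (27 / 14) ≤ (27 / 14) ^ d * (27 / 14) :=
      mul_le_mul_of_nonneg_right ih (by norm_num)
    nlinarith

theorem pow_add_one_le (x : ℝ) (hx : 0 ≤ x) (d : ℕ) (hd : 1 ≤ d) : x ^ d + 1 ≤ (x + 1) ^ d := by
  induction d, hd using Nat.le_induction with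
  | base => simp
  | succ d hd ih =>
    rw [pow_succ, pow_succ]
    have h1 : (x ^ d + 1) * (x + 1) ≤ (x + 1) ^ d * (x + 1) :=
      mul_le_mul_of_nonneg_right ih (by linarith)
    have h2 : 0 ≤ x ^ d := pow_nonneg hx d
    nlinarith

end Expl

open Expl PAs4 in
theorem p_expl (hg1 : S_G1) (d n : ℕ) (hd : 850 ≤ d) (hn : n ≤ d) :
    ∃ (M : ℕ) (σ η R p : ℝ), (M : ℝ) ≤ 2 ^ d - 1 ∧ 0 < η ∧ η < σ ∧ 0 < R ∧
      p = Real.exp (-(σ ^ 2 * (3 / 4 * √d) ^ 2 / 2)) * G (σ - η) ^ n ∧ 2 * d / R ^ 2 ≤ p ∧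
      (1 - p / 2) ^ M * ((1 + 4 * R / η) ^ d + 1) ^ n < 1 := by
  have hd1 : (850 : ℝ) ≤ d := by exact_mod_cast hd
  have hG0 : (0.68 : ℝ) ≤ G 1 := hg1
  have hG1 : G 1 ≤ 1 := G_le_one 1
  obtain ⟨p, hp⟩ : ∃ p, p = Real.exp (-((1.001 : ℝ) ^ 2 * (3 / 4 * √d) ^ 2 / 2)) * G 1 ^ n :=
    ⟨_, rfl⟩
  have hplow : (1 / 1.95) ^ d ≤ p := by
    have h1 : Real.exp (-((1.001 : ℝ) ^ 2 * (3 / 4 * √d) ^ 2 / 2)) =
        Real.exp (-((1.001 : ℝ) ^ 2 * (3 / 4) ^ 2 / 2)) ^ d := by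
      rw [← Real.exp_nat_mul, mul_pow, Real.sq_sqrt (Nat.cast_nonneg d)]
      congr 1
      ring
    have h2 : G 1 ^ d ≤ G 1 ^ n := pow_le_pow_of_le_one (by linarith) hG1 hn
    have h3 : (1 / 1.95 : ℝ) ≤ Real.exp (-((1.001 : ℝ) ^ 2 * (3 / 4) ^ 2 / 2)) * G 1 := by
      have h4 := FxW.num hg1
      rw [Real.rpow_one] at h4
      rw [Real.exp_neg, div_le_iff₀ (by norm_num)]
      have h5 := Real.exp_pos ((1.001 : ℝ) ^ 2 * (3 / 4) ^ 2 / 2)
      rw [mul_assoc, ← div_eq_inv_mul, le_div_iff₀ h5]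
      linarith
    calc (1 / 1.95 : ℝ) ^ d ≤ (Real.exp (-((1.001 : ℝ) ^ 2 * (3 / 4) ^ 2 / 2)) * G 1) ^ d :=
          pow_le_pow_left₀ (by norm_num) h3 d
      _ = Real.exp (-((1.001 : ℝ) ^ 2 * (3 / 4) ^ 2 / 2)) ^ d * G 1 ^ d := mul_pow _ _ _
      _ ≤ p := by
          rw [hp, h1]
          gcongr
  have hp0 : 0 < p := lt_of_lt_of_le (by positivity) hplow
  have hp1 : p ≤ 1 := by
    rw [hp]
    refine mul_le_one₀ ?_ (pow_nonneg (by linarith) n) (pow_le_one₀ (by linarith) hG1)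
    rw [Real.exp_le_one_iff]
    have : 0 ≤ (1.001 : ℝ) ^ 2 * (3 / 4 * √d) ^ 2 / 2 := by positivity
    linarith
  have hpinv : 1 / p ≤ 1.95 ^ d := by
    rw [div_le_iff₀ hp0]
    have h1 : (1.95 : ℝ) ^ d * (1 / 1.95) ^ d = 1 := by
      rw [← mul_pow]
      norm_num
    have h2 : (1.95 : ℝ) ^ d * (1 / 1.95) ^ d ≤ 1.95 ^ d * p := by gcongr
    linarith
  obtain ⟨R, hR⟩ : ∃ R, R = √(2 * d / p) := ⟨_, rfl⟩
  have hR0 : 0 < R := by
    rw [hR]
    apply Real.sqrt_pos.2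
    apply div_pos <;> linarith
  have hR2 : R ^ 2 = 2 * d / p := by
    rw [hR, Real.sq_sqrt]
    apply div_nonneg <;> linarith
  have hRle : R ≤ d * 1.4 ^ d := by
    refine (abs_le_of_sq_le_sq' ?_ (by positivity)).2
    rw [hR2]
    have h1 : ((d : ℝ) * 1.4 ^ d) ^ 2 = d ^ 2 * 1.96 ^ d := by
      rw [mul_pow, ← pow_mul, mul_comm d 2, pow_mul]
      norm_num
    rw [h1]
    calc 2 * (d : ℝ) / p = 2 * d * (1 / p) := by ring
      _ ≤ 2 * d * 1.95 ^ d := by gcongr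
      _ ≤ d ^ 2 * 1.96 ^ d := by
          have h2 : 2 * (d : ℝ) ≤ d ^ 2 := by nlinarith
          have h3 : (1.95 : ℝ) ^ d ≤ 1.96 ^ d := by gcongr; norm_num
          gcongr
  have hexp : 2 + 4000 * R ≤ Real.exp d := by
    have h1 : (2.7 : ℝ) ^ d ≤ Real.exp d := by
      have h2 : Real.exp d = Real.exp 1 ^ d := by
        rw [← Real.exp_nat_mul, mul_one]
      rw [h2]
      have := Real.exp_one_gt_d9
      gcongr
      linarith
    have h2 : (2.7 : ℝ) ^ d = 1.4 ^ d * (27 / 14) ^ d := by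
      rw [← mul_pow]
      norm_num
    have h3 := lin d (by omega)
    have h4 : (1 : ℝ) ≤ 1.4 ^ d := one_le_pow₀ (by norm_num)
    have h5 : 1.4 ^ d * (4001 * (d : ℝ)) ≤ 1.4 ^ d * (27 / 14) ^ d := by gcongr
    have h6 : 4000 * R ≤ 4000 * (d * 1.4 ^ d) := by gcongr
    have h7 : (850 : ℝ) * 1 ≤ d * 1.4 ^ d := mul_le_mul hd1 h4 (by norm_num) (by linarith)
    linarith
  have hM : (((2 ^ d - 1 : ℕ) : ℕ) : ℝ) = 2 ^ d - 1 := by
    rw [Nat.cast_sub Nat.one_le_two_pow]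
    push_cast
    ring
  refine ⟨2 ^ d - 1, 1.001, 0.001, R, p, hM.le, by norm_num, by norm_num, hR0, ?_, ?_, ?_⟩
  · rw [hp]
    norm_num
  · rw [hR2]
    refine le_of_eq ?_
    field_simp
  · refine last_ineq hp0 hp1 ?_ ?_
    · have : 0 ≤ (1 + 4 * R / 0.001) ^ d := by positivity
      linarith
    · have hA : (1 + 4 * R / 0.001) ^ d + 1 ≤ (2 + 4000 * R) ^ d := by
        have e : (2 + 4000 * R) = (1 + 4 * R / 0.001) + 1 := by ring
        rw [e]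
        exact pow_add_one_le _ (by positivity) d (by omega)
      have hlog : Real.log ((1 + 4 * R / 0.001) ^ d + 1) ≤ d * d := by
        calc Real.log ((1 + 4 * R / 0.001) ^ d + 1) ≤ Real.log ((2 + 4000 * R) ^ d) :=
              Real.log_le_log (by positivity) hA
          _ = d * Real.log (2 + 4000 * R) := Real.log_pow _ _
          _ ≤ d * Real.log (Real.exp d) := by
              gcongr
          _ = d * d := by rw [Real.log_exp]
      have hnd : (n : ℝ) ≤ d := by exact_mod_cast hn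
      have hlog0 : 0 ≤ Real.log ((1 + 4 * R / 0.001) ^ d + 1) := by
        apply Real.log_nonneg
        have : 0 ≤ (1 + 4 * R / 0.001) ^ d := by positivity
        linarith
      rw [hM]
      have h1 : 2 / p * (n * Real.log ((1 + 4 * R / 0.001) ^ d + 1)) ≤
          1.95 ^ d * (2 * (d : ℝ) ^ 3) := by
        calc 2 / p * (n * Real.log ((1 + 4 * R / 0.001) ^ d + 1)) ≤ 2 / p * (d * (d * d)) := by
              gcongr
          _ = 1 / p * (2 * (d : ℝ) ^ 3) := by ring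
          _ ≤ 1.95 ^ d * (2 * (d : ℝ) ^ 3) := by gcongr
      have h2 := cube d hd
      have h3 : (2 : ℝ) ^ d = 1.95 ^ d * (40 / 39) ^ d := by
        rw [← mul_pow]
        norm_num
      have h4 : (1.95 : ℝ) ^ d * (2 * (d : ℝ) ^ 3 + 1) ≤ 1.95 ^ d * (40 / 39) ^ d := by gcongr
      have h5 : (1 : ℝ) < 1.95 ^ d := one_lt_pow₀ (by norm_num) (by omega)
      linarith

/-- fewer than `2^d` translates, in all dimensions `d ≥ 850` -/
theorem final_850 (d : ℕ) (hd : 850 ≤ d) (K : Set (E d)) (hK : IsCompact K) (hKc : Convex ℝ K)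
    (hF : Wide d (3 / 4 * √d) K) :
    ∃ T : Finset (E d), (T.card : ℝ) ≤ 2 ^ d - 1 ∧ ∀ L : Set (E d), CoveredBy T (K + L) := by
  obtain ⟨M, σ, η, R, p, hM, hη, hησ, hR, hp, hpR, hlt⟩ := p_expl p_g1 d d hd le_rfl
  obtain ⟨T, hT, hcov⟩ := final_key d d M σ η (3 / 4 * √d) R p K (by omega) hK hKc hF hη hησ hR
    hp hpR hlt
  exact ⟨T, le_trans (by exact_mod_cast hT) hM, hcov⟩

end Pool.Agent.H266.FN
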