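import Pool.Agent.H266.FN.Stm2

/-!
# Covering numbers of convex bodies with few normals at each point: the polynomial bound
-/

set_option autoImplicit false

open MeasureTheory Set Metric
open scoped Pointwise RealInnerProductSpace ENNReal

namespace Pool.Agent.H266.FN

open Pool.Agent.H266.RP (E CoveredBy)
open Pool.Agent.PZ871 (gm)

theorem fin3 (hkey : S_KEY) (has3 : S_AS3) (D : ℝ) (hD : 1 ≤ D) : ∃ C : ℝ, 0 < C ∧
    ∀ d n : ℕ, 1 ≤ d → 1 ≤ n → ∀ K : Set (E d), IsCompact K → Convex ℝ K →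
      closedBall 0 1 ⊆ K → K ⊆ closedBall 0 D → Few n K →
      ∃ T : Finset (E d),
        (T.card : ℝ) ≤ C * (n : ℝ) ^ (D ^ 2 + 1) * d * (1 + Real.log (n * d)) ∧
        ∀ L : Set (E d), CoveredBy T (K + L) := by
  obtain ⟨C, hC, h⟩ := has3 D hD
  refine ⟨C, hC, fun d n hd hn K hK hKc hB hKD hF => ?_⟩
  obtain ⟨M, σ, η, R, p, hM, hη, hησ, hR, hp, hpR, hlt⟩ := h d n hd hn
  obtain ⟨T, hT, hcov⟩ := hkey d n M σ η D R p K hd hK hKc hB hKD hF hη hησ hR hp hpR hlt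
  exact ⟨T, le_trans (by exact_mod_cast hT) hM, hcov⟩

end Pool.Agent.H266.FN
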