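import Pool.Agent.H266.FN.Stm

/-!
# Choice of the parameters, first case (task S_AS1, helper682)
-/

set_option autoImplicit false

open MeasureTheory Set Metric Filter Topology
open scoped Pointwise RealInnerProductSpace ENNReal

namespace Pool.Agent.H266.FN

namespace AsOne

theorem G_bounds (r : ℝ) : 0 ≤ G r ∧ G r ≤ 1 :=
  ⟨measureReal_nonneg, measureReal_le_one⟩

/-- the radius -/
theorem radius_le {s η : ℝ} {d : ℕ} (hη : 0 < η) (hs : 0 ≤ s) (hd : 1 ≤ d) :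
    2 + 4 * Real.sqrt (2 * d / (Real.exp (-s)) ^ d) / η ≤
      Real.exp ((1 + 8 / η + s / 2) * d) := by
  have hdr : (1 : ℝ) ≤ d := by exact_mod_cast hd
  have hd0 : (0 : ℝ) < d := by linarith
  have e1 : (Real.exp (-s)) ^ d = Real.exp (-(s * d)) := by
    rw [← Real.exp_nat_mul]
    congr 1
    ring
  have h1 : Real.sqrt (2 * d / (Real.exp (-s)) ^ d) ≤ 2 * d * Real.exp (s / 2 * d) := by
    rw [Real.sqrt_le_left (by positivity), e1, Real.exp_neg, div_inv_eq_mul, mul_pow,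
      ← Real.exp_nat_mul]
    have e2 : ((2 : ℕ) : ℝ) * (s / 2 * d) = s * d := by push_cast; ring
    rw [e2]
    apply mul_le_mul_of_nonneg_right _ (Real.exp_pos _).le
    nlinarith
  have hE : 1 ≤ Real.exp (s / 2 * d) := Real.one_le_exp (by positivity)
  have h2 : 4 * Real.sqrt (2 * d / (Real.exp (-s)) ^ d) / η ≤ 8 * d / η * Real.exp (s / 2 * d) := by
    rw [div_mul_eq_mul_div]
    apply div_le_div_of_nonneg_right _ hη.le
    linarith
  have h3 : 2 + 4 * Real.sqrt (2 * d / (Real.exp (-s)) ^ d) / η ≤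
      (2 + 8 * d / η) * Real.exp (s / 2 * d) := by
    rw [add_mul]
    linarith
  refine h3.trans ?_
  have h4 : 2 + 8 * d / η ≤ Real.exp (1 + 8 * d / η) := by
    have := Real.add_one_le_exp (1 + 8 * d / η)
    linarith
  calc (2 + 8 * d / η) * Real.exp (s / 2 * d)
      ≤ Real.exp (1 + 8 * d / η) * Real.exp (s / 2 * d) :=
        mul_le_mul_of_nonneg_right h4 (Real.exp_pos _).le
    _ = Real.exp (1 + 8 * d / η + s / 2 * d) := by rw [← Real.exp_add]
    _ ≤ Real.exp ((1 + 8 / η + s / 2) * d) := by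
        apply Real.exp_le_exp.2
        have : (1 + 8 / η + s / 2) * d = d + 8 * d / η + s / 2 * d := by ring
        rw [this]
        linarith

end AsOne

open AsOne in
theorem p_as1 : S_AS1 := by
  intro κ σ r δ q hκ hr hrσ hδ hq hmain
  obtain ⟨hg0, hg1⟩ := G_bounds r
  have hgpos : 0 < G r := by
    rcases hg0.lt_or_eq with h | h
    · exact h
    · rw [← h, Real.zero_rpow hκ.ne', mul_zero] at hmain
      exact absurd hmain (not_lt.2 (Real.exp_pos _).le)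
  obtain ⟨g, hg⟩ : ∃ g, g = G r := ⟨_, rfl⟩
  rw [← hg] at hg0 hg1 hgpos hmain
  obtain ⟨c, hc⟩ : ∃ c, c = Real.exp (-(σ ^ 2 * δ ^ 2 / 2)) := ⟨_, rfl⟩
  have hc0 : 0 < c := by rw [hc]; exact Real.exp_pos _
  have hc1 : c ≤ 1 := by
    rw [hc]
    exact Real.exp_le_one_iff.2 (by linarith [show 0 ≤ σ ^ 2 * δ ^ 2 / 2 by positivity])
  have hgk0 : 0 < g ^ κ := Real.rpow_pos_of_pos hgpos κ
  have hgk1 : g ^ κ ≤ 1 := Real.rpow_le_one hg0 hg1 hκ.le
  obtain ⟨p₀, hp₀⟩ : ∃ p₀, p₀ = c * g ^ κ := ⟨_, rfl⟩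
  have hp0 : 0 < p₀ := by rw [hp₀]; positivity
  have hp1 : p₀ ≤ 1 := by rw [hp₀]; exact mul_le_one₀ hc1 hgk0.le hgk1
  have ha : 1 < q * p₀ := by
    have h1 : Real.exp (σ ^ 2 * δ ^ 2 / 2) * c = 1 := by
      rw [hc, ← Real.exp_add]
      simp
    have h2 := mul_lt_mul_of_pos_right hmain hc0
    rw [h1] at h2
    rw [hp₀]
    linarith
  obtain ⟨s, hs⟩ : ∃ s, s = -Real.log p₀ := ⟨_, rfl⟩
  have hs0 : 0 ≤ s := by
    rw [hs]
    linarith [Real.log_nonpos hp0.le hp1]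
  have hps : Real.exp (-s) = p₀ := by
    rw [hs, neg_neg, Real.exp_log hp0]
  obtain ⟨η, hη⟩ : ∃ η, η = σ - r := ⟨_, rfl⟩
  have hη0 : 0 < η := by linarith
  obtain ⟨C, hC⟩ : ∃ C, C = 1 + 8 / η + s / 2 := ⟨_, rfl⟩
  have hC0 : 0 < C := by rw [hC]; positivity
  have hlim := tendsto_pow_const_div_const_pow_of_one_lt 3 ha
  have hev : ∀ᶠ d : ℕ in atTop, (d : ℝ) ^ 3 / (q * p₀) ^ d < 1 / (2 * (κ * C + 1)) :=
    (tendsto_order.1 hlim).2 _ (by positivity)
  obtain ⟨d₁, hd₁⟩ := eventually_atTop.1 hev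
  refine ⟨max d₁ 1, fun d hd n hn => ?_⟩
  have hd1 : 1 ≤ d := (le_max_right _ _).trans hd
  have hdr : (1 : ℝ) ≤ d := by exact_mod_cast hd1
  have hd0 : (0 : ℝ) < d := by linarith
  have hbig := hd₁ d ((le_max_left _ _).trans hd)
  have hpd : 0 < p₀ ^ d := by positivity
  have hqd : 1 ≤ q ^ d := one_le_pow₀ hq.le
  obtain ⟨R, hR⟩ : ∃ R, R = Real.sqrt (2 * d / p₀ ^ d) := ⟨_, rfl⟩
  have hR0 : 0 < R := by rw [hR]; exact Real.sqrt_pos.2 (by positivity)
  have hR2 : R ^ 2 = 2 * d / p₀ ^ d := by rw [hR, Real.sq_sqrt (by positivity)]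
  obtain ⟨p, hp⟩ : ∃ p, p = Real.exp (-(σ ^ 2 * (δ * √d) ^ 2 / 2)) * g ^ n := ⟨_, rfl⟩
  have e1 : Real.exp (-(σ ^ 2 * (δ * √d) ^ 2 / 2)) = c ^ d := by
    rw [hc, ← Real.exp_nat_mul, mul_pow, Real.sq_sqrt hd0.le]
    congr 1
    ring
  have hpp : p₀ ^ d ≤ p := by
    rw [hp, e1, hp₀, mul_pow]
    apply mul_le_mul_of_nonneg_left _ (by positivity)
    rw [← Real.rpow_natCast (g ^ κ) d, ← Real.rpow_mul hg0, ← Real.rpow_natCast g n]
    exact Real.rpow_le_rpow_of_exponent_ge hgpos hg1 hn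
  have hpone : p ≤ 1 := by
    rw [hp, e1]
    exact mul_le_one₀ (pow_le_one₀ hc0.le hc1) (by positivity) (pow_le_one₀ hg0 hg1)
  have hppos : 0 < p := lt_of_lt_of_le hpd hpp
  refine ⟨⌊q ^ d⌋₊, η, R, p, Nat.floor_le (by positivity), hη0, by linarith, hR0, ?_, ?_, ?_⟩
  · rw [hp, hη, sub_sub_cancel, hg]
  · rw [hR2]
    refine le_trans (le_of_eq ?_) hpp
    field_simp
  · obtain ⟨M, hM⟩ : ∃ M : ℕ, M = ⌊q ^ d⌋₊ := ⟨_, rfl⟩
    rw [← hM]
    have hM1 : q ^ d < M + 1 := by rw [hM]; exact Nat.lt_floor_add_one _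
    have h1 : (1 - p / 2) ^ M ≤ Real.exp (-(p * M / 2)) := by
      have h2 : 1 - p / 2 ≤ Real.exp (-(p / 2)) := by
        have := Real.add_one_le_exp (-(p / 2))
        linarith
      calc (1 - p / 2) ^ M ≤ (Real.exp (-(p / 2))) ^ M := pow_le_pow_left₀ (by linarith) h2 M
        _ = Real.exp (-(p * M / 2)) := by
            rw [← Real.exp_nat_mul]
            congr 1
            ring
    have h2 : (q * p₀) ^ d - 1 ≤ p * M := by
      have h3 : p₀ ^ d * (q ^ d - 1) ≤ p * M := by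
        apply mul_le_mul hpp _ (by linarith) hppos.le
        linarith
      have h4 : p₀ ^ d ≤ 1 := pow_le_one₀ hp0.le hp1
      rw [mul_pow]
      nlinarith
    have h3 : (1 + 4 * R / η) ^ d + 1 ≤ (2 + 4 * R / η) ^ d := by
      have h4 := pow_add_pow_le (x := 1 + 4 * R / η) (y := 1) (n := d) (by positivity)
        (by norm_num) (by omega)
      rw [one_pow] at h4
      refine h4.trans (le_of_eq ?_)
      congr 1
      ring
    have h4 : 2 + 4 * R / η ≤ Real.exp (C * d) := by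
      rw [hR, hC, ← hps]
      exact radius_le hη0 hs0 hd1
    have h5 : ((1 + 4 * R / η) ^ d + 1) ^ n ≤ Real.exp (κ * C * (d : ℝ) ^ 3) := by
      calc ((1 + 4 * R / η) ^ d + 1) ^ n ≤ ((2 + 4 * R / η) ^ d) ^ n :=
            pow_le_pow_left₀ (by positivity) h3 n
        _ ≤ ((Real.exp (C * d)) ^ d) ^ n :=
            pow_le_pow_left₀ (by positivity) (pow_le_pow_left₀ (by positivity) h4 d) n
        _ = Real.exp (n * (d * (C * d))) := by
            rw [← Real.exp_nat_mul, ← Real.exp_nat_mul]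
        _ ≤ Real.exp (κ * C * (d : ℝ) ^ 3) := by
            apply Real.exp_le_exp.2
            have h6 : 0 ≤ (d : ℝ) * (C * d) := by positivity
            calc (n : ℝ) * (d * (C * d)) ≤ (κ * d) * (d * (C * d)) :=
                  mul_le_mul_of_nonneg_right hn h6
              _ = κ * C * (d : ℝ) ^ 3 := by ring
    have h6 : (κ * C + 1) * (d : ℝ) ^ 3 < (q * p₀) ^ d / 2 := by
      have hapos : 0 < (q * p₀) ^ d := by positivity
      rw [div_lt_div_iff₀ hapos (by positivity)] at hbig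
      linarith
    have hd3 : (1 : ℝ) ≤ (d : ℝ) ^ 3 := one_le_pow₀ hdr
    calc (1 - p / 2) ^ M * ((1 + 4 * R / η) ^ d + 1) ^ n
        ≤ Real.exp (-(p * M / 2)) * Real.exp (κ * C * (d : ℝ) ^ 3) :=
          mul_le_mul h1 h5 (by positivity) (Real.exp_pos _).le
      _ = Real.exp (-(p * M / 2) + κ * C * (d : ℝ) ^ 3) := by rw [← Real.exp_add]
      _ < 1 := by
          have h7 : -(p * M / 2) + κ * C * (d : ℝ) ^ 3 < 0 := by linarith
          calc Real.exp (-(p * M / 2) + κ * C * (d : ℝ) ^ 3) < Real.exp 0 := Real.exp_lt_exp.2 h7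
            _ = 1 := Real.exp_zero

end Pool.Agent.H266.FN
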