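import Pool.Agent.H266.FN.Stm3

/-!
# The choice of the parameters, explicit bound for all `n`, `d`, `D`
(after the proof of `S_AS2` by helper236)
-/

set_option autoImplicit false

open MeasureTheory Set Metric
open scoped Pointwise RealInnerProductSpace ENNReal

namespace Pool.Agent.H266.FN

def S_AS4 : Prop := ∀ D : ℝ, 1 ≤ D → ∀ d n : ℕ, 1 ≤ d → 1 ≤ n → ∃ (M : ℕ) (σ η R p : ℝ),
    (M : ℝ) ≤ 17 * (25 * (n : ℝ)) ^ (D ^ 2) * n * d * (1 + Real.log (n * d)) ∧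
    0 < η ∧ η < σ ∧ 0 < R ∧
    p = Real.exp (-(σ ^ 2 * D ^ 2 / 2)) * G (σ - η) ^ n ∧ 2 * d / R ^ 2 ≤ p ∧
    (1 - p / 2) ^ M * ((1 + 4 * R / η) ^ d + 1) ^ n < 1

namespace PAs4

theorem G_le_one (r : ℝ) : G r ≤ 1 := by
  unfold G
  exact measureReal_le_one

theorem G_nonneg (r : ℝ) : 0 ≤ G r := by
  unfold G
  exact measureReal_nonneg

/-- the lower bound for the power -/
theorem G_pow (hg2 : S_G2) {ℓ r : ℝ} {n : ℕ} (hn : 1 ≤ n)
    (hℓ : ℓ = Real.log (2 * n)) (hr0 : 0 < r) (hr : r ^ 2 = 2 * ℓ) :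
    1 / 2 ≤ G r ^ n := by
  have hn1 : (1 : ℝ) ≤ n := by exact_mod_cast hn
  have hpos : 0 < 2 * (n : ℝ) := by positivity
  have h1 := hg2 r hr0
  have h2 : Real.exp (-(r ^ 2 / 2)) = (2 * (n : ℝ))⁻¹ := by
    rw [hr, mul_div_cancel_left₀ _ (two_ne_zero), Real.exp_neg, hℓ, Real.exp_log hpos]
  rw [h2] at h1
  have h3 : (2 * (n : ℝ))⁻¹ ≤ 1 / 2 := by
    rw [← one_div]
    apply one_div_le_one_div_of_le two_pos
    linarith
  have h4 : (1 - (2 * (n : ℝ))⁻¹) ^ n ≤ G r ^ n := pow_le_pow_left₀ (by linarith) h1 n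
  have h5 := one_add_mul_le_pow (a := -(2 * (n : ℝ))⁻¹) (by linarith) n
  have h6 : (n : ℝ) * (2 * (n : ℝ))⁻¹ ≤ 1 / 2 := by
    rw [← div_eq_mul_inv, div_le_iff₀ hpos]
    linarith
  have h7 : 1 + (n : ℝ) * -(2 * (n : ℝ))⁻¹ = 1 - (n : ℝ) * (2 * (n : ℝ))⁻¹ := by ring
  rw [h7, ← sub_eq_add_neg] at h5
  linarith

/-- the last inequality -/
theorem last_ineq {p A : ℝ} {M n : ℕ} (hp0 : 0 < p) (hp1 : p ≤ 1) (hA : 1 ≤ A)
    (hM : 2 / p * (n * Real.log A) < M) : (1 - p / 2) ^ M * A ^ n < 1 := by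
  have hA0 : 0 < A := by linarith
  have h1 : (1 - p / 2) ^ M ≤ Real.exp (-(p / 2 * M)) := by
    have h2 : 1 - p / 2 ≤ Real.exp (-(p / 2)) := by
      have := Real.add_one_le_exp (-(p / 2))
      linarith
    have h3 := pow_le_pow_left₀ (by linarith : (0 : ℝ) ≤ 1 - p / 2) h2 M
    rw [← Real.exp_nat_mul] at h3
    refine h3.trans (le_of_eq ?_)
    congr 1
    ring
  have h2 : A ^ n = Real.exp (n * Real.log A) := by
    rw [Real.exp_nat_mul, Real.exp_log hA0]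
  have h3 : Real.exp (-(p / 2 * M)) * Real.exp (n * Real.log A) < 1 := by
    rw [← Real.exp_add, Real.exp_lt_one_iff]
    rw [div_mul_eq_mul_div, div_lt_iff₀ hp0] at hM
    linarith
  refine lt_of_le_of_lt ?_ h3
  rw [h2]
  exact mul_le_mul_of_nonneg_right h1 (Real.exp_pos _).le

theorem log9 : Real.log 2 + 3 / 2 ≤ Real.log 9 := by
  have h1 : Real.exp (3 / 2) ≤ 4.5 := by
    have h2 : Real.exp (3 / 2) ^ 2 = Real.exp 1 ^ 3 := by
      rw [← Real.exp_nat_mul, ← Real.exp_nat_mul]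
      congr 1
      norm_num
    have h3 := Real.exp_one_lt_d9
    have h4 : Real.exp 1 ^ 3 ≤ 2.7182818286 ^ 3 := pow_le_pow_left₀ (Real.exp_pos _).le h3.le 3
    have h5 : Real.exp (3 / 2) ^ 2 ≤ 4.5 ^ 2 := by
      rw [h2]
      refine h4.trans ?_
      norm_num
    exact le_of_sq_le_sq h5 (by norm_num)
  have h2 := Real.log_le_log (by positivity : 0 < 2 * Real.exp (3 / 2)) (by linarith : 2 * Real.exp (3 / 2) ≤ 9)
  rwa [Real.log_mul (by norm_num) (by positivity), Real.log_exp] at h2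

end PAs4

open PAs4

theorem p_as4 (hg2 : S_G2) : S_AS4 := by
  intro D hD d n hd hn
  have hd1 : (1 : ℝ) ≤ d := by exact_mod_cast hd
  have hd0 : (0 : ℝ) < d := by linarith
  have hn1 : (1 : ℝ) ≤ n := by exact_mod_cast hn
  have hn0 : (0 : ℝ) < n := by linarith
  have hDD : 1 ≤ D ^ 2 := by nlinarith
  obtain ⟨ℓ, hℓ⟩ : ∃ ℓ : ℝ, ℓ = Real.log (2 * n) := ⟨_, rfl⟩
  have hℓ0 : 1 / 2 ≤ ℓ := by
    rw [hℓ]
    have h1 : Real.log 2 ≤ Real.log (2 * n) := Real.log_le_log two_pos (by linarith)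
    have h2 := Real.log_two_gt_d9
    linarith
  have hℓsum : ℓ = Real.log 2 + Real.log n := by
    rw [hℓ, Real.log_mul (by norm_num) (by positivity)]
  have hℓle : ℓ ≤ 2 * n := by
    have h1 := Real.log_le_sub_one_of_pos (show 0 < 2 * (n : ℝ) by positivity)
    linarith
  obtain ⟨r, hr0, hr⟩ : ∃ r : ℝ, 0 < r ∧ r ^ 2 = 2 * ℓ :=
    ⟨√(2 * ℓ), Real.sqrt_pos.2 (by linarith), Real.sq_sqrt (by linarith)⟩
  obtain ⟨P, hP⟩ : ∃ P : ℝ, P = (9 * (n : ℝ)) ^ (D ^ 2) := ⟨_, rfl⟩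
  have hPe : P = Real.exp (Real.log (9 * n) * D ^ 2) := by
    rw [hP, Real.rpow_def_of_pos (by positivity)]
  have hP1 : 1 ≤ P := by
    rw [hP]
    exact Real.one_le_rpow (by linarith) (by positivity)
  have hP0 : 0 < P := by linarith
  have hsub : r + 1 / r - 1 / r = r := by ring
  obtain ⟨p, hp⟩ : ∃ p : ℝ, p = Real.exp (-((r + 1 / r) ^ 2 * D ^ 2 / 2)) * G (r + 1 / r - 1 / r) ^ n :=
    ⟨_, rfl⟩
  have hpG : 1 / 2 ≤ G r ^ n := G_pow hg2 hn hℓ hr0 hr
  have hσ : (r + 1 / r) ^ 2 ≤ 2 * ℓ + 3 := by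
    have h1 : (r + 1 / r) ^ 2 = r ^ 2 + 2 + 1 / r ^ 2 := by
      field_simp
      ring
    have h2 : 1 / r ^ 2 ≤ 1 := by
      rw [div_le_one (by positivity), hr]
      linarith
    rw [h1, hr] at *
    linarith
  have hlog9n : Real.log (9 * n) = Real.log 9 + Real.log n :=
    Real.log_mul (by norm_num) (by positivity)
  have hpc : 1 / 2 ≤ p * P := by
    have h1 : (1 : ℝ) ≤ Real.exp (-((r + 1 / r) ^ 2 * D ^ 2 / 2)) * P := by
      rw [hPe, ← Real.exp_add]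
      apply Real.one_le_exp
      have h2 := mul_le_mul_of_nonneg_right hσ (by positivity : (0 : ℝ) ≤ D ^ 2)
      have h3 := mul_le_mul_of_nonneg_right log9 (by positivity : (0 : ℝ) ≤ D ^ 2)
      rw [hℓsum] at h2
      rw [hlog9n]
      linarith
    rw [hp, hsub]
    have h4 := mul_le_mul hpG h1 (by norm_num) (by linarith)
    calc (1 : ℝ) / 2 = 1 / 2 * 1 := by ring
      _ ≤ _ := h4
      _ = _ := by ring
  have hp0 : 0 < p := by
    by_contra h
    have : p * P ≤ 0 := mul_nonpos_of_nonpos_of_nonneg (not_lt.1 h) hP0.le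
    linarith
  have hp1 : p ≤ 1 := by
    rw [hp, hsub]
    refine mul_le_one₀ ?_ (pow_nonneg (G_nonneg r) n) (pow_le_one₀ (G_nonneg r) (G_le_one r))
    rw [Real.exp_le_one_iff]
    have : 0 ≤ (r + 1 / r) ^ 2 * D ^ 2 / 2 := by positivity
    linarith
  have hpinv : 1 / p ≤ 2 * P := by
    rw [div_le_iff₀ hp0]
    linarith
  obtain ⟨R, hR0, hR⟩ : ∃ R : ℝ, 0 < R ∧ R ^ 2 = 2 * d / p :=
    ⟨√(2 * d / p), Real.sqrt_pos.2 (by positivity), Real.sq_sqrt (by positivity)⟩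
  obtain ⟨B, hB⟩ : ∃ B : ℝ, B = 1 + 4 * R / (1 / r) := ⟨_, rfl⟩
  have hB1 : 1 ≤ B := by
    rw [hB]
    have : 0 ≤ 4 * R / (1 / r) := by positivity
    linarith
  have hnd1 : 1 ≤ (n : ℝ) * d := by nlinarith
  have hBle : B ≤ 17 * (P * (n * d)) := by
    have h1 : 4 * R / (1 / r) = 4 * R * r := by
      field_simp
    have h2 : 4 * R * r ≤ 2 * R ^ 2 + 2 * r ^ 2 := by nlinarith [sq_nonneg (R - r)]
    have h3 : R ^ 2 ≤ 4 * (P * (n * d)) := by
      rw [hR]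
      have h4 := mul_le_mul_of_nonneg_left hpinv (by positivity : (0 : ℝ) ≤ 2 * d)
      have h5 : P * (d : ℝ) ≤ P * (n * d) := by
        apply mul_le_mul_of_nonneg_left _ hP0.le
        nlinarith
      calc 2 * (d : ℝ) / p = 2 * d * (1 / p) := by ring
        _ ≤ 2 * d * (2 * P) := h4
        _ = 4 * (P * d) := by ring
        _ ≤ 4 * (P * (n * d)) := by linarith
    have h4 : r ^ 2 ≤ 4 * (P * (n * d)) := by
      rw [hr]
      have h5 : (n : ℝ) ≤ n * d := by nlinarith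
      have h6 : (n : ℝ) * d ≤ P * (n * d) := by nlinarith
      linarith
    have h7 : 1 ≤ P * (n * d) := by nlinarith
    rw [hB, h1]
    linarith
  obtain ⟨Λ, hΛ⟩ : ∃ Λ : ℝ, Λ = (D ^ 2 + 1) * (1 + Real.log (n * d)) := ⟨_, rfl⟩
  have hlnd : 0 ≤ Real.log (n * d) := Real.log_nonneg hnd1
  have hΛ1 : 1 ≤ Λ := by
    rw [hΛ]
    nlinarith
  have hlogB : Real.log B ≤ 3 * Λ := by
    have h1 : Real.log B ≤ Real.log 17 + (Real.log (9 * n) * D ^ 2 + Real.log (n * d)) := by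
      have h2 := Real.log_le_log (by linarith) hBle
      rw [Real.log_mul (by norm_num) (by positivity), Real.log_mul (by positivity) (by positivity),
        hPe, Real.log_exp] at h2
      exact h2
    have h17 : Real.log 17 ≤ 3 := by
      rw [Real.log_le_iff_le_exp (by norm_num)]
      have h3 := Real.exp_one_gt_d9
      have h4 : (2.7182818283 : ℝ) ^ 3 ≤ Real.exp 1 ^ 3 := pow_le_pow_left₀ (by norm_num) h3.le 3
      have h5 : Real.exp 3 = Real.exp 1 ^ 3 := by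
        rw [← Real.exp_nat_mul]
        norm_num
      rw [h5]
      refine le_trans ?_ h4
      norm_num
    have h9 : Real.log 9 ≤ 3 := by
      have := Real.log_le_log (by norm_num : (0 : ℝ) < 9) (by norm_num : (9 : ℝ) ≤ 17)
      linarith
    have h10 : Real.log n ≤ Real.log (n * d) := Real.log_le_log hn0 (by nlinarith)
    rw [hlog9n] at h1
    rw [hΛ]
    have h11 : Real.log n * D ^ 2 ≤ Real.log (n * d) * D ^ 2 :=
      mul_le_mul_of_nonneg_right h10 (by positivity)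
    have h12 : Real.log 9 * D ^ 2 ≤ 3 * D ^ 2 := mul_le_mul_of_nonneg_right h9 (by positivity)
    have h13 : 0 ≤ Real.log (n * d) * D ^ 2 := by positivity
    nlinarith
  obtain ⟨A, hA⟩ : ∃ A : ℝ, A = B ^ d + 1 := ⟨_, rfl⟩
  have hBd : 1 ≤ B ^ d := one_le_pow₀ hB1
  have hA1 : 1 ≤ A := by rw [hA]; linarith
  have hlogA0 : 0 ≤ Real.log A := Real.log_nonneg hA1
  have hlogA : Real.log A ≤ 4 * (d * Λ) := by
    have h1 : A ≤ 2 * B ^ d := by rw [hA]; linarith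
    have h2 := Real.log_le_log (by linarith) h1
    rw [Real.log_mul two_ne_zero (by positivity), Real.log_pow] at h2
    have h3 : Real.log 2 ≤ 1 := by
      have := Real.log_two_lt_d9
      linarith
    have h4 := mul_le_mul_of_nonneg_left hlogB hd0.le
    have h5 : 1 ≤ (d : ℝ) * Λ := by nlinarith
    linarith
  obtain ⟨M, hM⟩ : ∃ M : ℕ, M = ⌊2 / p * (n * Real.log A)⌋₊ + 1 := ⟨_, rfl⟩
  have hX0 : 0 ≤ 2 / p * (n * Real.log A) := by positivity
  have hM1 : 2 / p * (n * Real.log A) < M := by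
    rw [hM]
    push_cast
    exact Nat.lt_floor_add_one _
  have hM2 : (M : ℝ) ≤ 2 / p * (n * Real.log A) + 1 := by
    rw [hM]
    push_cast
    have := Nat.floor_le hX0
    linarith
  have hPQ : P * (D ^ 2 + 1) ≤ (25 * (n : ℝ)) ^ (D ^ 2) := by
    have h1 : D ^ 2 + 1 ≤ Real.exp (D ^ 2) := Real.add_one_le_exp _
    have h2 : Real.exp (D ^ 2) = Real.exp 1 ^ (D ^ 2) := by
      rw [← Real.exp_mul, one_mul]
    calc P * (D ^ 2 + 1) ≤ P * Real.exp (D ^ 2) := mul_le_mul_of_nonneg_left h1 hP0.le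
      _ = (9 * (n : ℝ) * Real.exp 1) ^ (D ^ 2) := by
        rw [hP, h2, ← Real.mul_rpow (by positivity) (by positivity)]
      _ ≤ (25 * (n : ℝ)) ^ (D ^ 2) := by
        refine Real.rpow_le_rpow (by positivity) ?_ (by positivity)
        have h3 := Real.exp_one_lt_d9
        nlinarith
  refine ⟨M, r + 1 / r, 1 / r, R, p, ?_, by positivity, by linarith, hR0, hp, ?_, ?_⟩
  · have h1 : (n : ℝ) * Real.log A ≤ n * (4 * (d * Λ)) :=
      mul_le_mul_of_nonneg_left hlogA hn0.le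
    have h2 : 2 / p * (n * Real.log A) ≤ 4 * P * (n * (4 * (d * Λ))) := by
      refine mul_le_mul ?_ h1 (by positivity) (by positivity)
      have : 2 / p = 2 * (1 / p) := by ring
      rw [this]
      linarith
    have h3 : (1 : ℝ) ≤ P * (n * (d * Λ)) := by
      have h5 : 1 ≤ (d : ℝ) * Λ := by nlinarith
      have h6 : 1 ≤ (n : ℝ) * (d * Λ) := by nlinarith
      nlinarith
    calc (M : ℝ) ≤ 17 * (P * (n * (d * Λ))) := by linarith
      _ = P * (D ^ 2 + 1) * (17 * n * d * (1 + Real.log (n * d))) := by rw [hΛ]; ring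
      _ ≤ (25 * (n : ℝ)) ^ (D ^ 2) * (17 * n * d * (1 + Real.log (n * d))) :=
        mul_le_mul_of_nonneg_right hPQ (by positivity)
      _ = _ := by ring
  · rw [hR]
    have h1 : 2 * (d : ℝ) / (2 * d / p) = p := by
      field_simp
    rw [h1]
  · rw [← hB, ← hA]
    exact last_ineq hp0 hp1 hA1 hM1

end Pool.Agent.H266.FN
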