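import Pool.Agent.H266.FN.Stm3

/-!
# Covering numbers of convex bodies with few normals: the theorem from the lemmas
-/

set_option autoImplicit false

open MeasureTheory Set Metric
open scoped Pointwise RealInnerProductSpace ENNReal

namespace Pool.Agent.H266.FN

open Pool.Agent.H266.RP (E CoveredBy)
open Pool.Agent.PZ871 (gm)

namespace FxW

/-- the first case of the parameters and the main estimate -/
theorem core (hkey : S_KEYW) (has1 : S_AS1) (κ σ r δ q : ℝ) (hκ : 0 < κ) (hr : 0 < r) (hrσ : r < σ)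
    (hδ : 0 ≤ δ) (hq : 1 < q) (h : Real.exp (σ ^ 2 * δ ^ 2 / 2) < q * G r ^ κ) :
    ∃ d₀ : ℕ, ∀ d : ℕ, d₀ ≤ d → ∀ K : Set (E d), IsCompact K → Convex ℝ K →
      ∀ n : ℕ, (n : ℝ) ≤ κ * d → Wide n (δ * √d) K →
      ∃ T : Finset (E d), (T.card : ℝ) ≤ q ^ d ∧ ∀ L : Set (E d), CoveredBy T (K + L) := by
  obtain ⟨d₀, h1⟩ := has1 κ σ r δ q hκ hr hrσ hδ hq h
  refine ⟨max d₀ 1, fun d hd K hK hc n hn hF => ?_⟩
  obtain ⟨M, η, R, p, hM, hη, hησ, hR, hp, hpR, hlt⟩ := h1 d (le_of_max_le_left hd) n hn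
  obtain ⟨T, hT, hL⟩ := hkey d n M σ η (δ * √d) R p K (le_of_max_le_right hd) hK hc hF hη
    hησ hR hp hpR hlt
  exact ⟨T, (Nat.cast_le.2 hT).trans hM, hL⟩

/-- the numbers of the first part -/
theorem num (hg1 : S_G1) :
    Real.exp ((1.001 : ℝ) ^ 2 * (3 / 4) ^ 2 / 2) < 1.95 * G 1 ^ (1 : ℝ) := by
  rw [Real.rpow_one]
  have h1 : (0.68 : ℝ) ≤ G 1 := hg1
  have h2 : Real.exp ((1.001 : ℝ) ^ 2 * (3 / 4) ^ 2 / 2) ≤ 1.3259 := by
    refine (Real.exp_bound' (by norm_num) (by norm_num) (n := 5) (by norm_num)).trans ?_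
    norm_num [Finset.sum_range_succ, Nat.factorial]
  linarith

/-- the choice of the parameters of the second part -/
theorem par (hg2 : S_G2) (κ q : ℝ) (hκ : 0 < κ) (hq : 1 < q) :
    ∃ r δ : ℝ, 0 < r ∧ 0 < δ ∧ Real.exp ((r + 1) ^ 2 * δ ^ 2 / 2) < q * G r ^ κ := by
  have hq0 : 0 < q := by linarith
  obtain ⟨y, hy⟩ : ∃ y, y = q ^ (-(1 / (2 * κ))) := ⟨_, rfl⟩
  have hy0 : 0 < y := by rw [hy]; exact Real.rpow_pos_of_pos hq0 _
  have hy1 : y < 1 := by
    rw [hy]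
    exact Real.rpow_lt_one_of_one_lt_of_neg hq (by
      have : 0 < 1 / (2 * κ) := by positivity
      linarith)
  have hyκ : q * y ^ κ = √q := by
    rw [hy, ← Real.rpow_mul hq0.le, Real.sqrt_eq_rpow]
    have e : -(1 / (2 * κ)) * κ = -(1 / 2) := by
      field_simp
    rw [e]
    nth_rewrite 1 [← Real.rpow_one q]
    rw [← Real.rpow_add hq0]
    norm_num
  obtain ⟨r, hr⟩ : ∃ r, r = 2 / (1 - y) := ⟨_, rfl⟩
  have h1y : 0 < 1 - y := by linarith
  have hr2 : 2 ≤ r := by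
    rw [hr, le_div_iff₀ h1y]
    linarith
  have hr0 : 0 < r := by linarith
  have hexp : Real.exp (-(r ^ 2 / 2)) ≤ 1 - y := by
    have h1 := Real.add_one_le_exp (r ^ 2 / 2)
    have h2 : 1 / (1 - y) ≤ Real.exp (r ^ 2 / 2) := by
      have h3 : 1 / (1 - y) = r / 2 := by
        rw [hr]
        field_simp
      rw [h3]
      nlinarith
    rw [Real.exp_neg, inv_le_comm₀ (Real.exp_pos _) h1y, ← one_div]
    exact h2
  have hG : y ≤ G r := by
    have h1 := hg2 r hr0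
    linarith
  have hGκ : √q ≤ q * G r ^ κ := by
    rw [← hyκ]
    exact mul_le_mul_of_nonneg_left (Real.rpow_le_rpow hy0.le hG hκ.le) hq0.le
  have hsq : 1 < √q := by
    rw [Real.lt_sqrt (by norm_num)]
    linarith
  have hlog : 0 < Real.log (√q) := Real.log_pos hsq
  refine ⟨r, √(Real.log (√q)) / (r + 1), hr0, div_pos (Real.sqrt_pos.2 hlog) (by linarith), ?_⟩
  have e : (r + 1) ^ 2 * (√(Real.log (√q)) / (r + 1)) ^ 2 / 2 = Real.log (√q) / 2 := by
    rw [div_pow, Real.sq_sqrt hlog.le]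
    have : r + 1 ≠ 0 := by linarith
    field_simp
  rw [e]
  refine lt_of_lt_of_le ?_ hGκ
  have h1 : Real.exp (Real.log (√q) / 2) < Real.exp (Real.log (√q)) :=
    Real.exp_lt_exp.2 (by linarith)
  rwa [Real.exp_log (by linarith)] at h1

end FxW

/-- S_FINW from the lemmas -/
theorem p_finw (hkey : S_KEYW) (has1 : S_AS1) (hg1 : S_G1) (hg2 : S_G2) : S_FINW := by
  refine ⟨?_, ?_⟩
  · obtain ⟨d₀, h⟩ := FxW.core hkey has1 1 1.001 1 (3 / 4) 1.95 (by norm_num) (by norm_num)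
      (by norm_num) (by norm_num) (by norm_num) (FxW.num hg1)
    exact ⟨d₀, fun d hd K hK hc hF => h d hd K hK hc d (by rw [one_mul]) hF⟩
  · intro κ q hκ hq
    obtain ⟨r, δ, hr, hδ, hlt⟩ := FxW.par hg2 κ q hκ hq
    obtain ⟨d₀, h⟩ := FxW.core hkey has1 κ (r + 1) r δ q hκ hr (by linarith) hδ.le hq hlt
    exact ⟨δ, hδ, d₀, h⟩

end Pool.Agent.H266.FN
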