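import Pool.Agent.H266.FN.Stm

set_option autoImplicit false

open MeasureTheory Set Metric

namespace Pool.Agent.H266.FN

namespace PG1

theorem exp_ge {y : ℝ} (h0 : 0 ≤ y) (h1 : y ≤ 1 / 2) :
    1 - y + y ^ 2 / 2 - y ^ 3 / 6 ≤ Real.exp (-y) := by
  have h := Real.exp_bound (x := -y) (by rw [abs_neg, abs_of_nonneg h0]; linarith)
    (n := 5) (by norm_num)
  have h2 := (abs_le.1 h).1
  rw [abs_neg, abs_of_nonneg h0] at h2
  simp only [Finset.sum_range_succ, Finset.sum_range_zero, Nat.factorial] at h2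
  norm_num at h2
  have h3 : 0 ≤ y ^ 4 * (1 / 24 - y / 100) := by
    have : 0 ≤ 1 / 24 - y / 100 := by linarith
    positivity
  nlinarith

theorem poly_int : ∫ x in Ioo (-1 : ℝ) 1, (1 - x ^ 2 / 2 + x ^ 4 / 8 - x ^ 6 / 48) =
    2 * (1 - 1 / 6 + 1 / 40 - 1 / 336) := by
  rw [← integral_Ioc_eq_integral_Ioo, ← intervalIntegral.integral_of_le (by norm_num)]
  rw [intervalIntegral.integral_sub, intervalIntegral.integral_add, intervalIntegral.integral_sub]
  · simp only [intervalIntegral.integral_div, integral_pow, intervalIntegral.integral_const]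
    norm_num
  · exact intervalIntegrable_const
  · exact (by fun_prop : Continuous fun x : ℝ => x ^ 2 / 2).intervalIntegrable _ _
  · exact (by fun_prop : Continuous fun x : ℝ => 1 - x ^ 2 / 2).intervalIntegrable _ _
  · exact (by fun_prop : Continuous fun x : ℝ => x ^ 4 / 8).intervalIntegrable _ _
  · exact (by fun_prop : Continuous fun x : ℝ => 1 - x ^ 2 / 2 + x ^ 4 / 8).intervalIntegrable _ _
  · exact (by fun_prop : Continuous fun x : ℝ => x ^ 6 / 48).intervalIntegrable _ _

end PG1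

theorem p_g1 : S_G1 := by
  show 0.68 ≤ G 1
  unfold G
  have e1 : (ProbabilityTheory.gaussianReal 0 1).real (Ioo (-1 : ℝ) 1) =
      ∫ x in Ioo (-1 : ℝ) 1, ProbabilityTheory.gaussianPDFReal 0 1 x := by
    unfold Measure.real
    rw [ProbabilityTheory.gaussianReal_apply_eq_integral 0 one_ne_zero, ENNReal.toReal_ofReal]
    exact integral_nonneg (fun x => ProbabilityTheory.gaussianPDFReal_nonneg _ _ _)
  rw [e1]
  set c : ℝ := (√(2 * Real.pi))⁻¹ with hc
  have hpi := Real.pi_pos
  have hc0 : 0 < c := by positivity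
  have h1 : ∫ x in Ioo (-1 : ℝ) 1, c * (1 - x ^ 2 / 2 + x ^ 4 / 8 - x ^ 6 / 48) ≤
      ∫ x in Ioo (-1 : ℝ) 1, ProbabilityTheory.gaussianPDFReal 0 1 x := by
    refine setIntegral_mono_on ?_ ?_ measurableSet_Ioo ?_
    · exact (((by fun_prop : Continuous fun x : ℝ => c * (1 - x ^ 2 / 2 + x ^ 4 / 8 - x ^ 6 / 48))
        ).continuousOn.integrableOn_compact (isCompact_Icc (a := (-1 : ℝ)) (b := 1))).mono_set
        Ioo_subset_Icc_self
    · exact (ProbabilityTheory.integrable_gaussianPDFReal 0 1).integrableOn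
    · intro x hx
      have hx2 : x ^ 2 ≤ 1 := by nlinarith [hx.1, hx.2]
      have h2 := PG1.exp_ge (y := x ^ 2 / 2) (by positivity) (by linarith)
      unfold ProbabilityTheory.gaussianPDFReal
      have e2 : (√(2 * Real.pi * ((1 : NNReal) : ℝ)))⁻¹ = c := by
        rw [hc, NNReal.coe_one, mul_one]
      have e3 : -(x - 0) ^ 2 / (2 * ((1 : NNReal) : ℝ)) = -(x ^ 2 / 2) := by
        rw [NNReal.coe_one]
        ring
      rw [e2, e3]
      refine mul_le_mul_of_nonneg_left (le_trans (le_of_eq ?_) h2) hc0.le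
      ring
  refine le_trans ?_ h1
  rw [integral_const_mul, PG1.poly_int]
  have h3 : √(2 * Real.pi) ≤ 2.51 := by
    rw [Real.sqrt_le_left (by norm_num)]
    have := Real.pi_lt_d2
    norm_num at this ⊢
    linarith
  have h4 : (0 : ℝ) < √(2 * Real.pi) := by positivity
  rw [hc, inv_mul_eq_div, le_div_iff₀ h4]
  norm_num
  norm_num at h3
  linarith

end Pool.Agent.H266.FN
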