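import Pool.Agent.H266.FN.Stm

/-!
# The Gaussian tail bound `S_G2`
-/

set_option autoImplicit false

open MeasureTheory Set Metric
open scoped Pointwise RealInnerProductSpace ENNReal

namespace Pool.Agent.H266.FN

namespace PG2
open ProbabilityTheory

/-- the density at a shifted point -/
theorem pdf_le {r x y : ℝ} (hy : r ^ 2 + x ^ 2 ≤ y ^ 2) :
    gaussianPDF 0 1 y ≤ ENNReal.ofReal (Real.exp (-(r ^ 2 / 2))) * gaussianPDF 0 1 x := by
  rw [gaussianPDF_def, ← ENNReal.ofReal_mul (Real.exp_pos _).le]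
  refine ENNReal.ofReal_le_ofReal ?_
  rw [gaussianPDFReal_def]
  show (√(2 * Real.pi * ((1 : NNReal) : ℝ)))⁻¹ * Real.exp (-(y - 0) ^ 2 / (2 * ((1 : NNReal) : ℝ))) ≤
    Real.exp (-(r ^ 2 / 2)) * ((√(2 * Real.pi * ((1 : NNReal) : ℝ)))⁻¹ *
      Real.exp (-(x - 0) ^ 2 / (2 * ((1 : NNReal) : ℝ))))
  rw [mul_left_comm, ← Real.exp_add]
  refine mul_le_mul_of_nonneg_left (Real.exp_le_exp.2 ?_) (by positivity)
  simp only [NNReal.coe_one, sub_zero, mul_one]
  linarith

/-- a shift of a half line -/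
theorem shift {r c : ℝ} {A B : Set ℝ} (hA : MeasurableSet A) (hB : MeasurableSet B)
    (h : ∀ x, x + c ∈ A → x ∈ B ∧ r ^ 2 + x ^ 2 ≤ (x + c) ^ 2) :
    gaussianReal 0 1 A ≤ ENNReal.ofReal (Real.exp (-(r ^ 2 / 2))) * gaussianReal 0 1 B := by
  rw [gaussianReal_apply 0 one_ne_zero, gaussianReal_apply 0 one_ne_zero,
    ← lintegral_indicator hA, ← lintegral_indicator hB,
    ← lintegral_add_right_eq_self (A.indicator fun x => gaussianPDF 0 1 x) c,
    ← lintegral_const_mul _ ((measurable_gaussianPDF 0 1).indicator hB)]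
  refine lintegral_mono fun x => ?_
  by_cases hx : x + c ∈ A
  · rw [indicator_of_mem hx, indicator_of_mem (h x hx).1]
    exact pdf_le (h x hx).2
  · rw [indicator_of_notMem hx]
    exact bot_le

theorem main (r : ℝ) (hr : 0 < r) : 1 - Real.exp (-(r ^ 2 / 2)) ≤ G r := by
  have h1 : gaussianReal 0 1 (Ici r) ≤
      ENNReal.ofReal (Real.exp (-(r ^ 2 / 2))) * gaussianReal 0 1 (Ici 0) :=
    shift (c := r) measurableSet_Ici measurableSet_Ici fun x hx => by
      rw [mem_Ici] at hx ⊢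
      have : 0 ≤ x := by linarith
      exact ⟨this, by nlinarith⟩
  have h2 : gaussianReal 0 1 (Iic (-r)) ≤
      ENNReal.ofReal (Real.exp (-(r ^ 2 / 2))) * gaussianReal 0 1 (Iic 0) :=
    shift (c := -r) measurableSet_Iic measurableSet_Iic fun x hx => by
      rw [mem_Iic] at hx ⊢
      have : x ≤ 0 := by linarith
      exact ⟨this, by nlinarith⟩
  have : NullSingletonClass (gaussianReal 0 1) := nullSingletonClass_gaussianReal one_ne_zero
  have h3 : gaussianReal 0 1 (Iic (0 : ℝ)) = gaussianReal 0 1 (Iio (0 : ℝ)) :=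
    measure_congr Iio_ae_eq_Iic.symm
  have h4 : gaussianReal 0 1 (Ici (0 : ℝ)) + gaussianReal 0 1 (Iio (0 : ℝ)) = 1 := by
    rw [← measure_union (by
      rw [Set.disjoint_left]; intro x hx hx'; exact absurd (mem_Iio.1 hx') (not_lt.2 (mem_Ici.1 hx))) measurableSet_Iio]
    have : Ici (0 : ℝ) ∪ Iio 0 = univ := by
      ext x; simp
    rw [this, measure_univ]
  have h5 : gaussianReal 0 1 (Ioo (-r) r)ᶜ ≤ ENNReal.ofReal (Real.exp (-(r ^ 2 / 2))) := by
    have e : (Ioo (-r) r)ᶜ = Iic (-r) ∪ Ici r := by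
      ext x
      simp only [mem_compl_iff, mem_Ioo, not_and_or, not_lt, mem_union, mem_Iic, mem_Ici]
    rw [e]
    refine (measure_union_le _ _).trans ((add_le_add h2 h1).trans ?_)
    rw [← mul_add, h3, add_comm, h4, mul_one]
  have h6 : (gaussianReal 0 1).real (Ioo (-r) r)ᶜ ≤ Real.exp (-(r ^ 2 / 2)) := by
    rw [Measure.real]
    exact ENNReal.toReal_le_of_le_ofReal (Real.exp_pos _).le h5
  have h7 := probReal_compl_eq_one_sub (μ := gaussianReal 0 1) (measurableSet_Ioo (a := -r) (b := r))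
  unfold G
  linarith
end PG2

theorem p_g2 : S_G2 := PG2.main

end Pool.Agent.H266.FN
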