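import Pool.Agent.H266.FN.Stm

/-!
# Illumination implies covering, for compact convex sets (by helper581 for helper266)
-/

set_option autoImplicit false

open MeasureTheory Set Metric
open scoped Pointwise RealInnerProductSpace ENNReal

namespace Pool.Agent.H266.FN

open Pool.Agent.H266.RP (E CoveredBy)

namespace IlcL

/-- smaller steps stay in the interior -/
theorem small {d : ℕ} {K : Set (E d)} (hc : Convex ℝ K) {z w : E d} (hz : z ∈ K) {τ t : ℝ}
    (hτ : 0 < τ) (h : z + τ • w ∈ interior K) (ht : 0 < t) (htτ : t ≤ τ) :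
    z + t • w ∈ interior K := by
  have h1 := hc.add_smul_mem_interior hz h (t := t / τ)
    ⟨by positivity, by rw [div_le_one hτ]; exact htτ⟩
  rw [smul_smul, div_mul_cancel₀ _ hτ.ne'] at h1
  exact h1

end IlcL

theorem p_ilc : S_ILC := by
  classical
  intro d K W hK hcv hW
  have hW' : ∀ x : K, ∃ (w : E d) (τ : ℝ), w ∈ W ∧ 0 < τ ∧ (x : E d) + τ • w ∈ interior K := by
    intro x
    obtain ⟨w, hw, τ, hτ, h⟩ := hW x.1 x.2
    exact ⟨w, τ, hw, hτ, h⟩
  choose w τ hw hτ hint using hW'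
  obtain ⟨s, hs⟩ := hK.elim_finite_subcover (fun x : K => {z : E d | z + τ x • w x ∈ interior K})
    (fun x => isOpen_interior.preimage (by fun_prop))
    (fun x hx => mem_iUnion.2 ⟨⟨x, hx⟩, hint ⟨x, hx⟩⟩)
  have ht : ∃ t : ℝ, 0 < t ∧ ∀ x ∈ s, t ≤ τ x := by
    rcases s.eq_empty_or_nonempty with h | h
    · exact ⟨1, one_pos, fun x hx => by rw [h] at hx; exact absurd hx (Finset.notMem_empty x)⟩
    · obtain ⟨x₀, hx₀, hmin⟩ := Finset.exists_min_image s τ h
      exact ⟨τ x₀, hτ x₀, hmin⟩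
  obtain ⟨t, ht0, ht⟩ := ht
  refine ⟨W.image (fun w => -(t • w)), Finset.card_image_le, ?_⟩
  intro L z hz
  obtain ⟨k, hk, b, hb, rfl⟩ := hz
  obtain ⟨x, hx⟩ := mem_iUnion.1 (hs hk)
  obtain ⟨hxs, hxk⟩ := mem_iUnion.1 hx
  have hfin : k + t • w x ∈ interior K := IlcL.small hcv hk (hτ x) hxk ht0 (ht x hxs)
  rw [mem_iUnion₂]
  refine ⟨-(t • w x), Finset.mem_image_of_mem _ (hw x), ?_⟩
  refine ⟨k + t • w x + b, ?_, ?_⟩
  · exact subset_interior_add_left (add_mem_add hfin hb)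
  · show -(t • w x) + (k + t • w x + b) = k + b
    abel

end Pool.Agent.H266.FN
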