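import Pool.Agent.H266.FN.Stm

/-!
# Polytopes with few facets at each vertex
-/

set_option autoImplicit false

open MeasureTheory Set Metric
open scoped Pointwise RealInnerProductSpace ENNReal

namespace Pool.Agent.H266.FN

open Pool.Agent.H266.RP (E CoveredBy)

theorem p_poly : S_POLY := by
  classical
  intro d n ι _ a b ha hn x hx
  have hcl : IsClosed {y : E d | ∀ i, ⟪a i, y⟫ ≤ b i} := by
    have h1 : {y : E d | ∀ i, ⟪a i, y⟫ ≤ b i} = ⋂ i, {y : E d | ⟪a i, y⟫ ≤ b i} := by
      ext y
      simp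
    rw [h1]
    exact isClosed_iInter fun i => isClosed_le (by fun_prop) continuous_const
  have hxP : ∀ i, ⟪a i, x⟫ ≤ b i := by
    have h1 := frontier_subset_closure hx
    rw [hcl.closure_eq] at h1
    exact h1
  have hna : ∀ i, 0 < ‖a i‖ := fun i => norm_pos_iff.2 (ha i)
  refine ⟨(Finset.univ.filter fun i => ⟪a i, x⟫ = b i).image fun i => ‖a i‖⁻¹ • a i, ?_, ?_, ?_⟩
  · refine Finset.card_image_le.trans ?_
    have h1 := hn x hxP
    have h2 : {i | ⟪a i, x⟫ = b i} = ((Finset.univ.filter fun i => ⟪a i, x⟫ = b i : Finset ι) : Set ι) := by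
      ext i
      simp
    rw [h2, Set.ncard_coe_finset] at h1
    exact h1
  · intro u hu
    rw [Finset.mem_image] at hu
    obtain ⟨i, hi, rfl⟩ := hu
    rw [Finset.mem_filter] at hi
    refine ⟨?_, fun y hy => ?_⟩
    · rw [norm_smul, norm_inv, norm_norm, inv_mul_cancel₀ (hna i).ne']
    · rw [real_inner_smul_left, real_inner_smul_left, hi.2]
      exact mul_le_mul_of_nonneg_left (hy i) (inv_nonneg.2 (hna i).le)
  · intro v hv
    have hact : ∀ i, ⟪a i, x⟫ = b i → ⟪a i, v⟫ < 0 := by
      intro i hi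
      have h1 := hv (‖a i‖⁻¹ • a i) (Finset.mem_image.2 ⟨i, Finset.mem_filter.2 ⟨Finset.mem_univ _, hi⟩, rfl⟩)
      rw [real_inner_smul_left] at h1
      by_contra hcon
      push Not at hcon
      have := mul_nonneg (inv_nonneg.2 (hna i).le) hcon
      linarith
    have hev : ∀ᶠ t : ℝ in nhdsWithin 0 (Ioi 0), ∀ i, ⟪a i, x + t • v⟫ < b i := by
      rw [Filter.eventually_all]
      intro i
      rcases (hxP i).eq_or_lt with h1 | h1
      · filter_upwards [self_mem_nhdsWithin] with t ht
        rw [inner_add_right, real_inner_smul_right, h1]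
        have h2 := mul_neg_of_pos_of_neg (show 0 < t from ht) (hact i h1)
        linarith
      · have hc : Continuous fun t : ℝ => ⟪a i, x + t • v⟫ := by fun_prop
        have h2 : Filter.Tendsto (fun t : ℝ => ⟪a i, x + t • v⟫) (nhds 0) (nhds ⟪a i, x + (0 : ℝ) • v⟫) :=
          hc.tendsto 0
        rw [zero_smul, add_zero] at h2
        exact (h2.eventually_lt_const h1).filter_mono nhdsWithin_le_nhds
    obtain ⟨t, ht1, ht2⟩ := (hev.and self_mem_nhdsWithin).exists
    refine ⟨t, ht2, ?_⟩
    have hop : IsOpen {y : E d | ∀ i, ⟪a i, y⟫ < b i} := by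
      have h1 : {y : E d | ∀ i, ⟪a i, y⟫ < b i} = ⋂ i, {y : E d | ⟪a i, y⟫ < b i} := by
        ext y
        simp
      rw [h1]
      exact isOpen_iInter_of_finite fun i => isOpen_lt (by fun_prop) continuous_const
    exact interior_maximal (fun y hy i => (hy i).le) hop ht1

end Pool.Agent.H266.FN
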