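import Pool.Agent.H266.FN.Stm

set_option autoImplicit false

open MeasureTheory Set Metric
open scoped Pointwise RealInnerProductSpace ENNReal

namespace Pool.Agent.H266.FN

open Pool.Agent.H266.RP (E CoveredBy)
open Pool.Agent.PZ871 (gm)

namespace XPr

/-- the indicator function of the interval `(-r, r)` -/
noncomputable def ind (r : ℝ) (t : ℝ) : ℝ≥0∞ := (Ioo (-r) r).indicator (fun _ => 1) t

theorem ind_of_mem {r t : ℝ} (h : t ∈ Ioo (-r) r) : ind r t = 1 := Set.indicator_of_mem h _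

theorem ind_of_notMem {r t : ℝ} (h : t ∉ Ioo (-r) r) : ind r t = 0 :=
  Set.indicator_of_notMem h _

theorem ind_meas (r : ℝ) : Measurable (ind r) := measurable_const.indicator measurableSet_Ioo

theorem ind_le (r t : ℝ) : ind r t ≤ 1 := by
  by_cases h : t ∈ Ioo (-r) r
  · rw [ind_of_mem h]
  · rw [ind_of_notMem h]
    exact zero_le

theorem ind_LC (r : ℝ) : Pool.Agent.TH84.HC.LC (ind r) where
  meas := ind_meas r
  le1 := ind_le r
  even := fun t => by
    by_cases h : t ∈ Ioo (-r) r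
    · have h' : -t ∈ Ioo (-r) r := ⟨by linarith [h.2], by linarith [h.1]⟩
      rw [ind_of_mem h, ind_of_mem h']
    · have h' : -t ∉ Ioo (-r) r := fun h2 => h ⟨by linarith [h2.2], by linarith [h2.1]⟩
      rw [ind_of_notMem h, ind_of_notMem h']
  lc := fun s h0 h1 x y => by
    by_cases hx : x ∈ Ioo (-r) r
    · by_cases hy : y ∈ Ioo (-r) r
      · have hxy : s • x + (1 - s) • y ∈ Ioo (-r) r :=
          (convex_Ioo (-r) r) hx hy h0.le (by linarith) (by ring)
        rw [ind_of_mem hx, ind_of_mem hy, ind_of_mem hxy, ENNReal.one_rpow, ENNReal.one_rpow,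
          one_mul]
      · rw [ind_of_notMem hy, ENNReal.zero_rpow_of_pos (by linarith), mul_zero]
        exact zero_le
    · rw [ind_of_notMem hx, ENNReal.zero_rpow_of_pos h0, zero_mul]
      exact zero_le

theorem lint_ind (r : ℝ) :
    ∫⁻ t, ind r t ∂(Pool.Agent.TH84.HC.g1) = ENNReal.ofReal (G r) := by
  have h1 : ∫⁻ t, ind r t ∂(Pool.Agent.TH84.HC.g1) = Pool.Agent.TH84.HC.g1 (Ioo (-r) r) :=
    lintegral_indicator_one measurableSet_Ioo
  rw [h1]
  unfold G
  rw [ofReal_measureReal]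

theorem two_le (t : ℝ) :
    (2 : ℝ≥0∞) ≤ ENNReal.ofReal (Real.exp t) + ENNReal.ofReal (Real.exp (-t)) := by
  rw [← ENNReal.ofReal_add (Real.exp_pos _).le (Real.exp_pos _).le]
  have h2 : (2 : ℝ≥0∞) = ENNReal.ofReal 2 := by
    rw [ENNReal.ofReal_ofNat]
  rw [h2]
  apply ENNReal.ofReal_le_ofReal
  have h3 := Real.add_one_le_exp t
  have h4 := Real.add_one_le_exp (-t)
  linarith

/-- the exponential factor does not decrease the integral of an even function -/
theorem even_le {d : ℕ} (b : E d) (W : E d → ℝ≥0∞) (hW : Measurable W) (he : ∀ g, W (-g) = W g) :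
    ∫⁻ g, W g ∂(gm d) ≤ ∫⁻ g, ENNReal.ofReal (Real.exp ⟪b, g⟫) * W g ∂(gm d) := by
  have hm : Measurable (fun g : E d => ENNReal.ofReal (Real.exp ⟪b, g⟫) * W g) :=
    (by fun_prop : Measurable (fun g : E d => ENNReal.ofReal (Real.exp ⟪b, g⟫))).mul hW
  have hm2 : Measurable (fun g : E d => ENNReal.ofReal (Real.exp (-⟪b, g⟫)) * W g) :=
    (by fun_prop : Measurable (fun g : E d => ENNReal.ofReal (Real.exp (-⟪b, g⟫)))).mul hW
  have h1 : ∫⁻ g, ENNReal.ofReal (Real.exp (-⟪b, g⟫)) * W g ∂(gm d) =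
      ∫⁻ g, ENNReal.ofReal (Real.exp ⟪b, g⟫) * W g ∂(gm d) := by
    rw [← Pool.Agent.TH84.HC.lint_neg d _ hm]
    refine lintegral_congr fun g => ?_
    rw [he, inner_neg_right]
  have h2 : 2 * ∫⁻ g, W g ∂(gm d) ≤
      2 * ∫⁻ g, ENNReal.ofReal (Real.exp ⟪b, g⟫) * W g ∂(gm d) := by
    calc 2 * ∫⁻ g, W g ∂(gm d) = ∫⁻ g, 2 * W g ∂(gm d) := (lintegral_const_mul _ hW).symm
      _ ≤ ∫⁻ g, (ENNReal.ofReal (Real.exp ⟪b, g⟫) * W g +
          ENNReal.ofReal (Real.exp (-⟪b, g⟫)) * W g) ∂(gm d) := by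
          refine lintegral_mono fun g => ?_
          rw [← add_mul]
          exact mul_le_mul' (two_le _) le_rfl
      _ = ∫⁻ g, ENNReal.ofReal (Real.exp ⟪b, g⟫) * W g ∂(gm d) +
          ∫⁻ g, ENNReal.ofReal (Real.exp (-⟪b, g⟫)) * W g ∂(gm d) := lintegral_add_left hm _
      _ = 2 * ∫⁻ g, ENNReal.ofReal (Real.exp ⟪b, g⟫) * W g ∂(gm d) := by
          rw [h1, two_mul]
  exact (ENNReal.mul_le_mul_iff_right (by norm_num) (by norm_num)).1 h2

end XPr

open XPr in
theorem p_pr : S_PR := by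
  intro d s x σ η D hη hησ hx hs
  obtain ⟨r, hr⟩ : ∃ r : ℝ, r = σ - η := ⟨_, rfl⟩
  have hr0 : 0 < r := by rw [hr]; linarith
  have hσ : 0 < σ := by linarith
  rw [← hr]
  obtain ⟨b, hb⟩ : ∃ b : E d, b = σ • x := ⟨_, rfl⟩
  obtain ⟨T, hTd⟩ : ∃ T : Set (E d), T = {g | ∀ u ∈ s, ⟪u, g⟫ < σ * ⟪u, x⟫ - η} := ⟨_, rfl⟩
  have hT : MeasurableSet T := by
    have e1 : T = ⋂ u ∈ s, {g : E d | ⟪u, g⟫ < σ * ⟪u, x⟫ - η} := by
      ext g
      simp [hTd]
    rw [e1]
    exact Finset.measurableSet_biInter s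
      (fun u _ => measurableSet_lt (by fun_prop) measurable_const)
  have hA : MeasurableSet {g : E d | ∀ u ∈ s, ⟪u, g⟫ < -η} := by
    have e1 : {g : E d | ∀ u ∈ s, ⟪u, g⟫ < -η} = ⋂ u ∈ s, {g : E d | ⟪u, g⟫ < -η} := by
      ext g
      simp
    rw [e1]
    exact Finset.measurableSet_biInter s
      (fun u _ => measurableSet_lt (by fun_prop) measurable_const)
  obtain ⟨F, hFd⟩ : ∃ F : E d → ℝ≥0∞, F = T.indicator 1 := ⟨_, rfl⟩
  have hF : Measurable F := by
    rw [hFd]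
    exact measurable_one.indicator hT
  have h1 : gm d {g | ∀ u ∈ s, ⟪u, g⟫ < -η} = ∫⁻ g, F (g + b) ∂(gm d) := by
    rw [← lintegral_indicator_one hA]
    refine lintegral_congr fun g => ?_
    have hiff : g ∈ {g : E d | ∀ u ∈ s, ⟪u, g⟫ < -η} ↔ g + b ∈ T := by
      rw [hTd, hb]
      constructor
      · intro h u hu
        have h2 := h u hu
        rw [inner_add_right, inner_smul_right]
        linarith
      · intro h u hu
        have h2 := h u hu
        rw [inner_add_right, inner_smul_right] at h2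
        linarith
    rw [hFd]
    by_cases hg : g + b ∈ T
    · rw [Set.indicator_of_mem (hiff.2 hg), Set.indicator_of_mem hg]
      rfl
    · rw [Set.indicator_of_notMem (fun h => hg (hiff.1 h)), Set.indicator_of_notMem hg]
  rw [h1, Pool.Agent.TH84.HC.cm_lint d b F hF]
  obtain ⟨W, hWd⟩ : ∃ W : E d → ℝ≥0∞, W = fun g => ∏ u ∈ s, ind r ⟪g, u⟫ := ⟨_, rfl⟩
  have hW : Measurable W := by
    rw [hWd]
    exact Finset.measurable_prod s (fun u _ => (ind_meas r).comp (by fun_prop))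
  have hWe : ∀ g, W (-g) = W g := by
    intro g
    rw [hWd]
    refine Finset.prod_congr rfl fun u _ => ?_
    rw [inner_neg_left, (ind_LC r).even]
  have hWF : ∀ g, W g ≤ F g := by
    intro g
    by_cases hg : g ∈ T
    · have e1 : F g = 1 := by
        rw [hFd, Set.indicator_of_mem hg]
        rfl
      rw [e1, hWd]
      exact Finset.prod_le_one' fun u _ => ind_le r _
    · rw [hTd] at hg
      have hg2 : ∃ u ∈ s, σ * ⟪u, x⟫ - η ≤ ⟪u, g⟫ := by
        by_contra hcon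
        push Not at hcon
        exact hg hcon
      obtain ⟨u, hu, hug⟩ := hg2
      have h3 : σ * 1 ≤ σ * ⟪u, x⟫ := mul_le_mul_of_nonneg_left (hs u hu).2 hσ.le
      have h4 : ind r ⟪g, u⟫ = 0 := by
        apply ind_of_notMem
        intro h5
        have h6 := h5.2
        rw [real_inner_comm] at h6
        linarith
      have h5 : W g = 0 := by
        rw [hWd]
        exact Finset.prod_eq_zero hu h4
      rw [h5]
      exact zero_le
  have h2 : ∫⁻ g, ENNReal.ofReal (Real.exp (-‖b‖ ^ 2 / 2)) *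
      (ENNReal.ofReal (Real.exp ⟪b, g⟫) * W g) ∂(gm d) ≤
      ∫⁻ g, ENNReal.ofReal (Real.exp (⟪b, g⟫ - ‖b‖ ^ 2 / 2)) * F g ∂(gm d) := by
    refine lintegral_mono fun g => ?_
    rw [← mul_assoc, ← ENNReal.ofReal_mul (Real.exp_pos _).le, ← Real.exp_add]
    have e1 : -‖b‖ ^ 2 / 2 + ⟪b, g⟫ = ⟪b, g⟫ - ‖b‖ ^ 2 / 2 := by ring
    rw [e1]
    exact mul_le_mul' le_rfl (hWF g)
  refine le_trans ?_ h2
  have hm : Measurable (fun g : E d => ENNReal.ofReal (Real.exp ⟪b, g⟫) * W g) :=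
    (by fun_prop : Measurable (fun g : E d => ENNReal.ofReal (Real.exp ⟪b, g⟫))).mul hW
  rw [lintegral_const_mul _ hm, ENNReal.ofReal_mul (Real.exp_pos _).le]
  have hG0 : 0 ≤ G r := measureReal_nonneg
  have h3 : ENNReal.ofReal (G r ^ s.card) ≤ ∫⁻ g, W g ∂(gm d) := by
    have h4 := Pool.Agent.TH84.HC.sidak s (fun _ => ind r) (fun u : E d => u)
      (fun _ _ => ind_LC r) (fun u hu => (hs u hu).1)
    rw [Finset.prod_const, lint_ind, ← ENNReal.ofReal_pow hG0] at h4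
    rw [hWd]
    exact h4
  have h4 : Real.exp (-(σ ^ 2 * D ^ 2 / 2)) ≤ Real.exp (-‖b‖ ^ 2 / 2) := by
    apply Real.exp_le_exp.2
    rw [hb, norm_smul, Real.norm_eq_abs, mul_pow, sq_abs]
    have h5 : ‖x‖ ^ 2 ≤ D ^ 2 := pow_le_pow_left₀ (norm_nonneg x) hx 2
    have h6 : σ ^ 2 * ‖x‖ ^ 2 ≤ σ ^ 2 * D ^ 2 := mul_le_mul_of_nonneg_left h5 (sq_nonneg σ)
    linarith
  exact mul_le_mul' (ENNReal.ofReal_le_ofReal h4) (h3.trans (even_le b W hW hWe))

end Pool.Agent.H266.FN
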