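import Pool.Agent.H266.FN.Stm

/-!
# The number of subsets with at most `n` elements
-/

set_option autoImplicit false

namespace Pool.Agent.H266.FN

theorem p_sub : S_SUB := by
  classical
  intro α V n
  suffices h : (V.powerset.filter (fun B => B.card ≤ n)).card ≤ (V.card + 1) ^ n by
    exact_mod_cast h
  induction n with
  | zero =>
    have h : V.powerset.filter (fun B => B.card ≤ 0) ⊆ {∅} := by
      intro B hB
      simpa using (Finset.mem_filter.1 hB).2
    exact (Finset.card_le_card h).trans (by simp)
  | succ n ih =>
    have hs : V.powerset.filter (fun B => B.card ≤ n + 1) ⊆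
        V.powerset.filter (fun B => B.card ≤ n) ∪
          Finset.image₂ (fun b B => insert b B) V
            (V.powerset.filter (fun B => B.card ≤ n)) := by
      intro B hB
      obtain ⟨hBV, hBn⟩ := Finset.mem_filter.1 hB
      rw [Finset.mem_powerset] at hBV
      rcases Nat.lt_or_ge n B.card with h | h
      · obtain ⟨b, hb⟩ : B.Nonempty := Finset.card_pos.1 (by omega)
        refine Finset.mem_union_right _ (Finset.mem_image₂.2 ⟨b, hBV hb, B.erase b, ?_, ?_⟩)
        · refine Finset.mem_filter.2 ⟨Finset.mem_powerset.2
            ((Finset.erase_subset _ _).trans hBV), ?_⟩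
          rw [Finset.card_erase_of_mem hb]
          omega
        · exact Finset.insert_erase hb
      · exact Finset.mem_union_left _ (Finset.mem_filter.2 ⟨Finset.mem_powerset.2 hBV, h⟩)
    refine (Finset.card_le_card hs).trans ((Finset.card_union_le _ _).trans ?_)
    have h2 := Finset.card_image₂_le (fun (b : α) (B : Finset α) => insert b B) V
      (V.powerset.filter (fun B => B.card ≤ n))
    have h3 : V.card * (V.powerset.filter (fun B => B.card ≤ n)).card ≤
        V.card * (V.card + 1) ^ n := Nat.mul_le_mul_left _ ih
    calc _ ≤ (V.card + 1) ^ n + V.card * (V.card + 1) ^ n := add_le_add ih (h2.trans h3)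
      _ = (V.card + 1) ^ (n + 1) := by ring

end Pool.Agent.H266.FN
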