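import Pool.Agent.H266.FN.Stm

/-!
# Chebyshev's inequality for the norm of a standard Gaussian vector
-/

set_option autoImplicit false

open MeasureTheory Set Metric ProbabilityTheory
open scoped ENNReal

namespace Pool.Agent.H266.FN

open Pool.Agent.PZ871 (gm)

namespace TailAux

/-- the second moment of the standard normal law -/
theorem second : ∫⁻ x, ENNReal.ofReal (x ^ 2) ∂(gaussianReal 0 1) = 1 := by
  have h0 : MemLp (fun x : ℝ => x) 2 (gaussianReal 0 1) := memLp_id_gaussianReal 2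
  have h1 : Integrable (fun x : ℝ => x ^ 2) (gaussianReal 0 1) := h0.integrable_sq
  rw [← ofReal_integral_eq_lintegral_ofReal h1 (Filter.Eventually.of_forall fun x => sq_nonneg x)]
  have h2 := variance_eq_sub (μ := gaussianReal 0 1) h0
  rw [variance_fun_id_gaussianReal, integral_id_gaussianReal] at h2
  have h3 : ∫ x, x ^ 2 ∂(gaussianReal 0 1) = 1 := by
    have h4 : ∫ x, ((fun x : ℝ => x) ^ 2) x ∂(gaussianReal 0 1) =
        ∫ x, x ^ 2 ∂(gaussianReal 0 1) := rfl
    rw [← h4]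
    have h5 : ((1 : NNReal) : ℝ) = 1 := rfl
    rw [h5] at h2
    linarith
  rw [h3, ENNReal.ofReal_one]

theorem second_norm (d : ℕ) : ∫⁻ g, ENNReal.ofReal (‖g‖ ^ 2) ∂(gm d) = d := by
  rw [Pool.Agent.TH84.HC.lint_pi d _ (by fun_prop)]
  have h1 : ∀ z : Fin d → ℝ, ENNReal.ofReal (‖(WithLp.toLp 2 z : Pool.Agent.PZ871.E d)‖ ^ 2) =
      ∑ i, ENNReal.ofReal (z i ^ 2) := by
    intro z
    rw [EuclideanSpace.norm_sq_eq, ENNReal.ofReal_sum_of_nonneg (fun i _ => by positivity)]
    refine Finset.sum_congr rfl fun i _ => ?_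
    rw [Real.norm_eq_abs, sq_abs]
  simp_rw [h1]
  rw [lintegral_finsetSum _ (fun i _ => by fun_prop)]
  have h2 : ∀ i : Fin d, ∫⁻ z, ENNReal.ofReal (z i ^ 2) ∂(Pool.Agent.H902R3.ZA.gm d) = 1 := by
    intro i
    have hmp := measurePreserving_eval (fun _ : Fin d => gaussianReal 0 1) i
    rw [← second, ← hmp.lintegral_comp (by fun_prop : Measurable fun x : ℝ => ENNReal.ofReal (x ^ 2))]
    rfl
  rw [Finset.sum_congr rfl fun i _ => h2 i, Finset.sum_const, Finset.card_univ, Fintype.card_fin,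
    nsmul_eq_mul, mul_one]

end TailAux

/-- **FN-TAIL.** -/
theorem p_tail : S_TAIL := by
  intro d R hR
  have hR2 : 0 < R ^ 2 := by positivity
  have h1 := meas_ge_le_lintegral_div (μ := gm d)
    (f := fun g : Pool.Agent.PZ871.E d => ENNReal.ofReal (‖g‖ ^ 2)) (by fun_prop)
    (ε := ENNReal.ofReal (R ^ 2)) (ENNReal.ofReal_pos.mpr hR2).ne' ENNReal.ofReal_ne_top
  rw [TailAux.second_norm] at h1
  refine (measure_mono ?_).trans (h1.trans (le_of_eq ?_))
  · intro g hg
    exact ENNReal.ofReal_le_ofReal (pow_le_pow_left₀ hR.le (le_of_lt hg) 2)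
  · rw [ENNReal.ofReal_div_of_pos hR2, ENNReal.ofReal_natCast]

end Pool.Agent.H266.FN
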