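import Pool.Agent.H266.FN.PKeyW
import Pool.Agent.H266.FN.PFinW
import Pool.Agent.H266.FN.PAs4
import Pool.Agent.H266.FN.PPr
import Pool.Agent.H266.FN.PTail
import Pool.Agent.H266.FN.PIlc
import Pool.Agent.H266.FN.PSub
import Pool.Agent.H266.FN.PAs1
import Pool.Agent.H266.FN.PG1
import Pool.Agent.H266.FN.PG2
import Pool.Agent.H266.FN.PPoly

/-!
# Covering numbers of convex bodies with few normals at each point: assembly
-/

set_option autoImplicit false

open MeasureTheory Set Metric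
open scoped Pointwise RealInnerProductSpace ENNReal

namespace Pool.Agent.H266.FN

open Pool.Agent.H266.RP (E CoveredBy)

theorem final_key : S_KEYW := p_keyw p_pr p_tail p_ilc p_sub

theorem final_fin : S_FINW := p_finw final_key p_as1 p_g1 p_g2

theorem final_explicit (D : ℝ) (hD : 1 ≤ D) (d n : ℕ) (hd : 1 ≤ d) (hn : 1 ≤ n) (K : Set (E d))
    (hK : IsCompact K) (hKc : Convex ℝ K) (hF : Wide n D K) :
    ∃ T : Finset (E d),
      (T.card : ℝ) ≤ 17 * (25 * (n : ℝ)) ^ (D ^ 2) * n * d * (1 + Real.log (n * d)) ∧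
      ∀ L : Set (E d), CoveredBy T (K + L) := by
  obtain ⟨M, σ, η, R, p, hM, hη, hησ, hR, hp, hpR, hlt⟩ := p_as4 p_g2 D hD d n hd hn
  obtain ⟨T, hT, hcov⟩ := final_key d n M σ η D R p K hd hK hKc hF hη hησ hR hp hpR hlt
  exact ⟨T, le_trans (by exact_mod_cast hT) hM, hcov⟩

theorem final_poly (d n : ℕ) (D : ℝ) (ι : Type) [Fintype ι] (a : ι → E d) (b : ι → ℝ)
    (ha : ∀ i, a i ≠ 0)
    (h : ∀ y : E d, (∀ i, ⟪a i, y⟫ ≤ b i) → {i | ⟪a i, y⟫ = b i}.ncard ≤ n)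
    (h1 : closedBall 0 1 ⊆ {y : E d | ∀ i, ⟪a i, y⟫ ≤ b i})
    (h2 : {y : E d | ∀ i, ⟪a i, y⟫ ≤ b i} ⊆ closedBall 0 D) :
    Wide n D {y : E d | ∀ i, ⟪a i, y⟫ ≤ b i} := by
  have hcl : IsClosed {y : E d | ∀ i, ⟪a i, y⟫ ≤ b i} := by
    rw [setOf_forall]
    exact isClosed_iInter fun i => isClosed_le (by fun_prop) continuous_const
  exact wide_of_balls n D _ hcl h1 h2 (p_poly d n ι a b ha h)

end Pool.Agent.H266.FN
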