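import Pool.Agent.H266.FN.Stm

/-!
# `S_AS2`: the choice of the parameters, polynomial case (helper236, for helper266)
-/

set_option autoImplicit false

open MeasureTheory Set Metric
open scoped Pointwise RealInnerProductSpace ENNReal

namespace Pool.Agent.H266.FN

namespace PAs2

theorem G_le_one (r : ℝ) : G r ≤ 1 := by
  unfold G
  exact measureReal_le_one

theorem G_nonneg (r : ℝ) : 0 ≤ G r := by
  unfold G
  exact measureReal_nonneg

/-- the lower bound for the power -/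
theorem G_pow (hg2 : S_G2) {κ ℓ r : ℝ} {d n : ℕ} (hκ : 1 ≤ κ) (hd : 1 ≤ d)
    (hn : (n : ℝ) ≤ κ * d) (hℓ : ℓ = Real.log (2 * κ * d)) (hr0 : 0 < r) (hr : r ^ 2 = 2 * ℓ) :
    1 / 2 ≤ G r ^ n := by
  have hd1 : (1 : ℝ) ≤ d := by exact_mod_cast hd
  have hpos : 0 < 2 * κ * (d : ℝ) := by positivity
  have h1 := hg2 r hr0
  have h2 : Real.exp (-(r ^ 2 / 2)) = (2 * κ * (d : ℝ))⁻¹ := by
    rw [hr, mul_div_cancel_left₀ _ (two_ne_zero), Real.exp_neg, hℓ, Real.exp_log hpos]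
  rw [h2] at h1
  have h3 : (2 * κ * (d : ℝ))⁻¹ ≤ 1 / 2 := by
    rw [← one_div]
    apply one_div_le_one_div_of_le two_pos
    nlinarith
  have h4 : (1 - (2 * κ * (d : ℝ))⁻¹) ^ n ≤ G r ^ n := pow_le_pow_left₀ (by linarith) h1 n
  have h5 := one_add_mul_le_pow (a := -(2 * κ * (d : ℝ))⁻¹) (by linarith) n
  have h6 : (n : ℝ) * (2 * κ * (d : ℝ))⁻¹ ≤ 1 / 2 := by
    rw [← div_eq_mul_inv, div_le_iff₀ hpos]
    linarith
  have h7 : 1 + (n : ℝ) * -(2 * κ * (d : ℝ))⁻¹ = 1 - (n : ℝ) * (2 * κ * (d : ℝ))⁻¹ := by ring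
  rw [h7, ← sub_eq_add_neg] at h5
  linarith

/-- the last inequality -/
theorem last_ineq {p A : ℝ} {M n : ℕ} (hp0 : 0 < p) (hp1 : p ≤ 1) (hA : 1 ≤ A)
    (hM : 2 / p * (n * Real.log A) < M) : (1 - p / 2) ^ M * A ^ n < 1 := by
  have hA0 : 0 < A := by linarith
  have h1 : (1 - p / 2) ^ M ≤ Real.exp (-(p / 2 * M)) := by
    have h2 : 1 - p / 2 ≤ Real.exp (-(p / 2)) := by
      have := Real.add_one_le_exp (-(p / 2))
      linarith
    have h3 := pow_le_pow_left₀ (by linarith : (0 : ℝ) ≤ 1 - p / 2) h2 M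
    rw [← Real.exp_nat_mul] at h3
    refine h3.trans (le_of_eq ?_)
    congr 1
    ring
  have h2 : A ^ n = Real.exp (n * Real.log A) := by
    rw [Real.exp_nat_mul, Real.exp_log hA0]
  have h3 : Real.exp (-(p / 2 * M)) * Real.exp (n * Real.log A) < 1 := by
    rw [← Real.exp_add, Real.exp_lt_one_iff]
    rw [div_mul_eq_mul_div, div_lt_iff₀ hp0] at hM
    linarith
  refine lt_of_le_of_lt ?_ h3
  rw [h2]
  exact mul_le_mul_of_nonneg_right h1 (Real.exp_pos _).le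

end PAs2

open PAs2

theorem p_as2 (hg2 : S_G2) : S_AS2 := by
  intro κ D hκ hD
  obtain ⟨c₁, hc₁⟩ : ∃ c₁ : ℝ, c₁ = 1 / 2 * Real.exp (-(3 / 2 * D ^ 2 + Real.log (2 * κ) * D ^ 2)) :=
    ⟨_, rfl⟩
  have hc0 : 0 < c₁ := by rw [hc₁]; positivity
  obtain ⟨C₃, hC₃⟩ : ∃ C₃ : ℝ, C₃ = 1 + 4 / c₁ + 8 * κ := ⟨_, rfl⟩
  have hC31 : 1 ≤ C₃ := by
    rw [hC₃]
    have : 0 < 4 / c₁ := by positivity
    linarith
  have hlC3 : 0 ≤ Real.log C₃ := Real.log_nonneg hC31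
  obtain ⟨C₄, hC₄⟩ : ∃ C₄ : ℝ, C₄ = 2 + Real.log C₃ + D ^ 2 := ⟨_, rfl⟩
  have hC40 : 0 < C₄ := by rw [hC₄]; positivity
  refine ⟨2 * κ * C₄ / c₁ + 1, by positivity, fun d hd n hn => ?_⟩
  have hd1 : (1 : ℝ) ≤ d := by exact_mod_cast hd
  have hd0 : (0 : ℝ) < d := by linarith
  obtain ⟨ℓ, hℓ⟩ : ∃ ℓ : ℝ, ℓ = Real.log (2 * κ * d) := ⟨_, rfl⟩
  have hℓ0 : 1 / 2 ≤ ℓ := by
    rw [hℓ]
    have h1 : Real.log 2 ≤ Real.log (2 * κ * d) := Real.log_le_log two_pos (by nlinarith)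
    have h2 := Real.log_two_gt_d9
    linarith
  have hℓsum : ℓ = Real.log (2 * κ) + Real.log d := by
    rw [hℓ, Real.log_mul (by positivity) (by positivity)]
  have hℓle : ℓ ≤ 2 * κ * d := by
    have h1 := Real.log_le_sub_one_of_pos (show 0 < 2 * κ * (d : ℝ) by positivity)
    linarith
  obtain ⟨r, hr0, hr⟩ : ∃ r : ℝ, 0 < r ∧ r ^ 2 = 2 * ℓ :=
    ⟨√(2 * ℓ), Real.sqrt_pos.2 (by linarith), Real.sq_sqrt (by linarith)⟩
  obtain ⟨P, hP⟩ : ∃ P : ℝ, P = (d : ℝ) ^ (D ^ 2) := ⟨_, rfl⟩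
  have hPe : P = Real.exp (Real.log d * D ^ 2) := by rw [hP, Real.rpow_def_of_pos hd0]
  have hP1 : 1 ≤ P := by
    rw [hP]
    exact Real.one_le_rpow hd1 (by positivity)
  have hP0 : 0 < P := by linarith
  have hP3 : (d : ℝ) ^ (D ^ 2 + 3) = P * (d : ℝ) ^ 3 := by
    rw [hP, Real.rpow_add hd0]
    congr 1
    exact_mod_cast Real.rpow_natCast (d : ℝ) 3
  have hsub : r + 1 / r - 1 / r = r := by ring
  obtain ⟨p, hp⟩ : ∃ p : ℝ, p = Real.exp (-((r + 1 / r) ^ 2 * D ^ 2 / 2)) * G (r + 1 / r - 1 / r) ^ n :=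
    ⟨_, rfl⟩
  have hpG : 1 / 2 ≤ G r ^ n := G_pow hg2 hκ hd hn hℓ hr0 hr
  have hσ : (r + 1 / r) ^ 2 ≤ 2 * ℓ + 3 := by
    have h1 : (r + 1 / r) ^ 2 = r ^ 2 + 2 + 1 / r ^ 2 := by
      field_simp
      ring
    have h2 : 1 / r ^ 2 ≤ 1 := by
      rw [div_le_one (by positivity), hr]
      linarith
    rw [h1, hr] at *
    linarith
  have hpc : c₁ ≤ p * P := by
    have h1 : Real.exp (-(3 / 2 * D ^ 2 + Real.log (2 * κ) * D ^ 2)) * Real.exp (-(Real.log d * D ^ 2)) ≤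
        Real.exp (-((r + 1 / r) ^ 2 * D ^ 2 / 2)) := by
      rw [← Real.exp_add]
      apply Real.exp_le_exp.2
      have h2 := mul_le_mul_of_nonneg_right hσ (by positivity : (0 : ℝ) ≤ D ^ 2)
      rw [hℓsum] at h2
      linarith
    have h2 : Real.exp (-(3 / 2 * D ^ 2 + Real.log (2 * κ) * D ^ 2)) ≤
        Real.exp (-((r + 1 / r) ^ 2 * D ^ 2 / 2)) * P := by
      have h3 := mul_le_mul_of_nonneg_right h1 hP0.le
      rw [mul_assoc, hPe, ← Real.exp_add (-(Real.log d * D ^ 2)), neg_add_cancel, Real.exp_zero,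
        mul_one, ← hPe] at h3
      exact h3
    rw [hc₁, hp, hsub]
    have h3 : 0 ≤ Real.exp (-((r + 1 / r) ^ 2 * D ^ 2 / 2)) * P := by positivity
    have h4 := mul_le_mul hpG h2 (Real.exp_pos _).le (by linarith)
    refine h4.trans (le_of_eq ?_)
    ring
  have hp0 : 0 < p := by
    by_contra h
    have : p * P ≤ 0 := mul_nonpos_of_nonpos_of_nonneg (not_lt.1 h) hP0.le
    linarith
  have hp1 : p ≤ 1 := by
    rw [hp, hsub]
    refine mul_le_one₀ ?_ (pow_nonneg (G_nonneg r) n) (pow_le_one₀ (G_nonneg r) (G_le_one r))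
    rw [Real.exp_le_one_iff]
    have : 0 ≤ (r + 1 / r) ^ 2 * D ^ 2 / 2 := by positivity
    linarith
  have hpinv : 1 / p ≤ P / c₁ := by
    rw [div_le_div_iff₀ hp0 hc0]
    linarith
  obtain ⟨R, hR0, hR⟩ : ∃ R : ℝ, 0 < R ∧ R ^ 2 = 2 * d / p :=
    ⟨√(2 * d / p), Real.sqrt_pos.2 (by positivity), Real.sq_sqrt (by positivity)⟩
  obtain ⟨B, hB⟩ : ∃ B : ℝ, B = 1 + 4 * R / (1 / r) := ⟨_, rfl⟩
  have hB1 : 1 ≤ B := by
    rw [hB]
    have : 0 ≤ 4 * R / (1 / r) := by positivity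
    linarith
  have hPd : 1 ≤ P * d := by nlinarith
  have hBle : B ≤ C₃ * (P * d) := by
    have h1 : 4 * R / (1 / r) = 4 * R * r := by
      field_simp
    have h2 : 4 * R * r ≤ 2 * R ^ 2 + 2 * r ^ 2 := by nlinarith [sq_nonneg (R - r)]
    have h3 : R ^ 2 ≤ 2 / c₁ * (P * d) := by
      rw [hR]
      have h4 := mul_le_mul_of_nonneg_left hpinv (by positivity : (0 : ℝ) ≤ 2 * d)
      calc 2 * (d : ℝ) / p = 2 * d * (1 / p) := by ring
        _ ≤ 2 * d * (P / c₁) := h4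
        _ = 2 / c₁ * (P * d) := by ring
    have h4 : r ^ 2 ≤ 4 * κ * (P * d) := by
      rw [hr]
      have h5 : (d : ℝ) ≤ P * d := by nlinarith
      have h6 := mul_le_mul_of_nonneg_left h5 (by positivity : (0 : ℝ) ≤ 4 * κ)
      linarith
    rw [hB, h1, hC₃]
    have h5 : (1 + 4 / c₁ + 8 * κ) * (P * d) =
        P * d + 2 * (2 / c₁ * (P * d)) + 2 * (4 * κ * (P * d)) := by ring
    rw [h5]
    linarith
  have hlogB : Real.log B ≤ (Real.log C₃ + D ^ 2 + 1) * d := by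
    have h1 : Real.log B ≤ Real.log C₃ + (Real.log d * D ^ 2 + Real.log d) := by
      have h2 := Real.log_le_log (by linarith) hBle
      rw [Real.log_mul (by positivity) (by positivity), Real.log_mul (by positivity) (by positivity),
        hPe, Real.log_exp] at h2
      exact h2
    have h2 : Real.log d ≤ d := by
      have := Real.log_le_sub_one_of_pos hd0
      linarith
    have h3 : Real.log d * D ^ 2 ≤ d * D ^ 2 := mul_le_mul_of_nonneg_right h2 (by positivity)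
    have h4 : Real.log C₃ ≤ Real.log C₃ * d := le_mul_of_one_le_right hlC3 hd1
    linarith
  obtain ⟨A, hA⟩ : ∃ A : ℝ, A = B ^ d + 1 := ⟨_, rfl⟩
  have hBd : 1 ≤ B ^ d := one_le_pow₀ hB1
  have hA1 : 1 ≤ A := by rw [hA]; linarith
  have hlogA0 : 0 ≤ Real.log A := Real.log_nonneg hA1
  have hlogA : Real.log A ≤ C₄ * (d : ℝ) ^ 2 := by
    have h1 : A ≤ 2 * B ^ d := by rw [hA]; linarith
    have h2 := Real.log_le_log (by linarith) h1
    rw [Real.log_mul two_ne_zero (by positivity), Real.log_pow] at h2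
    have h3 : Real.log 2 ≤ 1 := by
      have := Real.log_two_lt_d9
      linarith
    have h4 := mul_le_mul_of_nonneg_left hlogB hd0.le
    have h5 : (1 : ℝ) ≤ (d : ℝ) ^ 2 := one_le_pow₀ hd1
    rw [hC₄]
    nlinarith
  obtain ⟨M, hM⟩ : ∃ M : ℕ, M = ⌊2 / p * (n * Real.log A)⌋₊ + 1 := ⟨_, rfl⟩
  have hX0 : 0 ≤ 2 / p * (n * Real.log A) := by positivity
  have hM1 : 2 / p * (n * Real.log A) < M := by
    rw [hM]
    push_cast
    exact Nat.lt_floor_add_one _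
  have hM2 : (M : ℝ) ≤ 2 / p * (n * Real.log A) + 1 := by
    rw [hM]
    push_cast
    have := Nat.floor_le hX0
    linarith
  refine ⟨M, r + 1 / r, 1 / r, R, p, ?_, by positivity, by linarith, hR0, hp, ?_, ?_⟩
  · have h1 : (n : ℝ) * Real.log A ≤ κ * d * (C₄ * (d : ℝ) ^ 2) :=
      mul_le_mul hn hlogA hlogA0 (by positivity)
    have h2 : 2 / p * (n * Real.log A) ≤ 2 * (P / c₁) * (κ * d * (C₄ * (d : ℝ) ^ 2)) := by
      refine mul_le_mul ?_ h1 (by positivity) (by positivity)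
      have : 2 / p = 2 * (1 / p) := by ring
      rw [this]
      linarith
    have h3 : (1 : ℝ) ≤ P * (d : ℝ) ^ 3 := by
      have := one_le_pow₀ (n := 3) hd1
      nlinarith
    rw [hP3]
    have h4 : (2 * κ * C₄ / c₁ + 1) * (P * (d : ℝ) ^ 3) =
        2 * (P / c₁) * (κ * d * (C₄ * (d : ℝ) ^ 2)) + P * (d : ℝ) ^ 3 := by
      field_simp
    rw [h4]
    linarith
  · rw [hR]
    have h1 : 2 * (d : ℝ) / (2 * d / p) = p := by
      field_simp
    rw [h1]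
  · rw [← hB, ← hA]
    exact last_ineq hp0 hp1 hA1 hM1

end Pool.Agent.H266.FN
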