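import Pool.Agent.H266.FN.Stm3
import Pool.Agent.H266.RP.PNet
import Pool.Agent.H266.RP.PGreedy

/-!
# The main estimate (task S_KEY, by helper939; here for `Wide n D K`)
-/

set_option autoImplicit false

open MeasureTheory Set Metric
open scoped Pointwise RealInnerProductSpace ENNReal

namespace Pool.Agent.H266.FN

open Pool.Agent.H266.RP (E CoveredBy)
open Pool.Agent.PZ871 (gm)

private lemma key_G_nonneg (r : ℝ) : 0 ≤ G r := by
  unfold G
  exact measureReal_nonneg

private lemma key_G_le_one (r : ℝ) : G r ≤ 1 := by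
  unfold G
  exact measureReal_le_one

/-- the set of the vectors of norm at most `R` with products less than `-η/2` with all `b ∈ B` -/
private def keyC {d : ℕ} (R η : ℝ) (B : Finset (E d)) : Set (E d) :=
  {g | ‖g‖ ≤ R ∧ ∀ b ∈ B, ⟪b, g⟫ < -(η / 2)}

private lemma keyC_meas {d : ℕ} (R η : ℝ) (B : Finset (E d)) : MeasurableSet (keyC R η B) := by
  have h1 : MeasurableSet {g : E d | ‖g‖ ≤ R} :=
    (isClosed_le continuous_norm continuous_const).measurableSet
  have h2 : MeasurableSet (⋂ b ∈ B, {g : E d | ⟪b, g⟫ < -(η / 2)}) := by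
    refine Finset.measurableSet_biInter B fun b _ => ?_
    exact (isOpen_lt (continuous_const.inner continuous_id) continuous_const).measurableSet
  have h3 : keyC R η B = {g : E d | ‖g‖ ≤ R} ∩ ⋂ b ∈ B, {g : E d | ⟪b, g⟫ < -(η / 2)} := by
    ext g
    simp [keyC]
  rw [h3]
  exact h1.inter h2

private lemma key_inner_le {d : ℕ} (u b g : E d) {δ R : ℝ} (hδ : 0 ≤ δ) (h : ‖u - b‖ ≤ δ)
    (hg : ‖g‖ ≤ R) : |⟪u, g⟫ - ⟪b, g⟫| ≤ δ * R := by
  have h1 : ⟪u, g⟫ - ⟪b, g⟫ = ⟪u - b, g⟫ := by rw [inner_sub_left]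
  rw [h1]
  calc |⟪u - b, g⟫| ≤ ‖u - b‖ * ‖g‖ := abs_real_inner_le_norm _ _
    _ ≤ δ * R := mul_le_mul h hg (norm_nonneg _) hδ

private lemma key_frontier {d : ℕ} (hd : 1 ≤ d) {K : Set (E d)} (hK : IsCompact K)
    (h1 : K.Nonempty) : (frontier K).Nonempty := by
  rw [nonempty_frontier_iff]
  refine ⟨h1, fun h => ?_⟩
  have : Nontrivial (E d) := by
    have : Nonempty (Fin d) := ⟨⟨0, hd⟩⟩
    infer_instance
  have : NoncompactSpace (E d) := NormedSpace.noncompactSpace ℝ (E d)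
  exact noncompact_univ (E d) (h ▸ hK)

theorem p_keyw (hpr : S_PR) (htail : S_TAIL) (hilc : S_ILC) (hsub : S_SUB) : S_KEYW := by
  classical
  intro d n M σ η D R p K hd hKc hKv hfew hη hησ hR hp hRp hM
  rcases K.eq_empty_or_nonempty with hK0 | hKne
  · refine ⟨∅, Nat.zero_le _, fun L => ?_⟩
    rw [hK0, empty_add]
    exact empty_subset _
  have hRne : R ≠ 0 := hR.ne'
  have hηne : η ≠ 0 := hη.ne'
  have hδ : 0 < η / (2 * R) := by positivity
  have hδR : η / (2 * R) * R = η / 2 := by field_simp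
  obtain ⟨V, hVc, -, hVn⟩ := Pool.Agent.H266.RP.p_net d (η / (2 * R)) hδ
  have hVc' : (V.card : ℝ) ≤ (1 + 4 * R / η) ^ d := by
    have : (2 : ℝ) / (η / (2 * R)) = 4 * R / η := by field_simp; ring
    rwa [this] at hVc
  have hG0 := key_G_nonneg (σ - η)
  have hG1 := key_G_le_one (σ - η)
  have hexp0 : 0 < Real.exp (-(σ ^ 2 * D ^ 2 / 2)) := Real.exp_pos _
  have hexp1 : Real.exp (-(σ ^ 2 * D ^ 2 / 2)) ≤ 1 := by
    rw [Real.exp_le_one_iff]
    have : 0 ≤ σ ^ 2 * D ^ 2 / 2 := by positivity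
    linarith
  have hp1 : p ≤ 1 := by
    rw [hp]
    exact mul_le_one₀ hexp1 (pow_nonneg hG0 _) (pow_le_one₀ hG0 hG1)
  have hd' : (1 : ℝ) ≤ d := by exact_mod_cast hd
  have hp0 : 0 < p := lt_of_lt_of_le (by positivity) hRp
  -- the greedy choice
  set F : Finset (Finset (E d)) := (V.powerset.filter (fun B => B.card ≤ n)).filter
    (fun B => ENNReal.ofReal (p / 2) ≤ gm d (keyC R η B)) with hF
  have : IsProbabilityMeasure (gm d) := by
    unfold Pool.Agent.PZ871.gm
    infer_instance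
  have hcard : (F.card : ℝ) ≤ ((1 + 4 * R / η) ^ d + 1) ^ n := by
    have h1 : (F.card : ℝ) ≤ ((V.powerset.filter (fun B => B.card ≤ n)).card : ℝ) := by
      exact_mod_cast Finset.card_filter_le _ _
    have h2 := hsub (E d) V n
    have h3 : ((V.card : ℝ) + 1) ^ n ≤ ((1 + 4 * R / η) ^ d + 1) ^ n :=
      pow_le_pow_left₀ (by positivity) (by linarith) n
    linarith
  obtain ⟨W, hWc, hW⟩ := Pool.Agent.H266.RP.p_greedy (E d) (gm d) (Finset (E d)) F (keyC R η)
    (p / 2) (by linarith) (by linarith) (fun B _ => keyC_meas R η B)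
    (fun B hB => (Finset.mem_filter.1 hB).2) M (by
      refine lt_of_le_of_lt ?_ hM
      exact mul_le_mul_of_nonneg_left hcard (pow_nonneg (by linarith) _))
  -- boundary points
  have hfr : ∀ x ∈ frontier K, ∃ w ∈ W, ∃ τ : ℝ, 0 < τ ∧ x + τ • w ∈ interior K := by
    intro x hx
    have hxK : x ∈ K := hKc.isClosed.frontier_subset hx
    obtain ⟨s, hsn, hs1, ⟨x', hxD, hx'⟩, hs2⟩ := hfew x hx
    have hs3 : ∀ u ∈ s, ‖u‖ = 1 ∧ 1 ≤ ⟪u, x'⟫ := fun u hu => ⟨(hs1 u hu).1, hx' u hu⟩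
    choose! b hb using hVn
    have hP := hpr d s x' σ η D hη.le hησ hxD hs3
    have hpp : p ≤ Real.exp (-(σ ^ 2 * D ^ 2 / 2)) * G (σ - η) ^ s.card := by
      rw [hp]
      exact mul_le_mul_of_nonneg_left (pow_le_pow_of_le_one hG0 hG1 hsn) hexp0.le
    have hsub2 : {g : E d | ∀ u ∈ s, ⟪u, g⟫ < -η} ⊆
        keyC R η (s.image b) ∪ {g : E d | R < ‖g‖} := by
      intro g hg
      by_cases hgR : ‖g‖ ≤ R
      · left
        refine ⟨hgR, fun c hc => ?_⟩
        obtain ⟨u, hu, rfl⟩ := Finset.mem_image.1 hc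
        have h1 := key_inner_le u (b u) g hδ.le (hb u (hs3 u hu).1).2 hgR
        rw [hδR] at h1
        have h2 := (abs_le.1 h1).1
        have h3 : ⟪u, g⟫ < -η := hg u hu
        linarith
      · right
        exact lt_of_not_ge hgR
    have hmeas : ENNReal.ofReal (p / 2) ≤ gm d (keyC R η (s.image b)) := by
      have h1 : ENNReal.ofReal p ≤ gm d (keyC R η (s.image b)) + ENNReal.ofReal (p / 2) := by
        calc ENNReal.ofReal p
            ≤ gm d {g : E d | ∀ u ∈ s, ⟪u, g⟫ < -η} := (ENNReal.ofReal_le_ofReal hpp).trans hP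
          _ ≤ gm d (keyC R η (s.image b) ∪ {g : E d | R < ‖g‖}) := measure_mono hsub2
          _ ≤ gm d (keyC R η (s.image b)) + gm d {g : E d | R < ‖g‖} := measure_union_le _ _
          _ ≤ gm d (keyC R η (s.image b)) + ENNReal.ofReal (p / 2) := by
            refine add_le_add le_rfl ((htail d R hR).trans (ENNReal.ofReal_le_ofReal ?_))
            have : 2 * (d : ℝ) / R ^ 2 = 2 * (d / R ^ 2) := by ring
            linarith
      have h2 : ENNReal.ofReal p = ENNReal.ofReal (p / 2) + ENNReal.ofReal (p / 2) := by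
        rw [← ENNReal.ofReal_add (by linarith) (by linarith)]
        congr 1
        ring
      rw [h2] at h1
      exact ENNReal.le_of_add_le_add_right ENNReal.ofReal_ne_top h1
    have hB : s.image b ∈ F := by
      rw [hF, Finset.mem_filter, Finset.mem_filter, Finset.mem_powerset]
      refine ⟨⟨?_, Finset.card_image_le.trans hsn⟩, hmeas⟩
      intro c hc
      obtain ⟨u, hu, rfl⟩ := Finset.mem_image.1 hc
      exact (hb u (hs3 u hu).1).1
    obtain ⟨g, hgW, hg⟩ := hW _ hB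
    obtain ⟨t, ht, hxt⟩ := hs2 g (by
      intro u hu
      have h1 := key_inner_le u (b u) g hδ.le (hb u (hs3 u hu).1).2 hg.1
      rw [hδR] at h1
      have h2 := (abs_le.1 h1).2
      have h3 := hg.2 (b u) (Finset.mem_image_of_mem _ hu)
      linarith)
    exact ⟨g, hgW, t, ht, hxt⟩
  have hWne : W.Nonempty := by
    obtain ⟨x, hx⟩ := key_frontier hd hKc hKne
    obtain ⟨w, hw, -⟩ := hfr x hx
    exact ⟨w, hw⟩
  obtain ⟨T, hT, hT2⟩ := hilc d K W hKc hKv (by
    intro x hx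
    by_cases hxi : x ∈ interior K
    · obtain ⟨w, hw⟩ := hWne
      refine ⟨w, hw, ?_⟩
      have hcont : Continuous fun τ : ℝ => x + τ • w := by fun_prop
      have hnh : (fun τ : ℝ => x + τ • w) ⁻¹' interior K ∈ nhds (0 : ℝ) := by
        refine hcont.continuousAt.preimage_mem_nhds (isOpen_interior.mem_nhds ?_)
        simpa using hxi
      obtain ⟨ε, hε, hε2⟩ := Metric.mem_nhds_iff.1 hnh
      refine ⟨ε / 2, by positivity, hε2 ?_⟩
      rw [mem_ball, dist_zero_right, Real.norm_eq_abs, abs_of_pos (by positivity)]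
      linarith
    · exact hfr x ⟨subset_closure hx, hxi⟩)
  exact ⟨T, hT.trans hWc, hT2⟩

end Pool.Agent.H266.FN
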