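import Pool.Agent.H266.RP.Stm
import Pool.Graph.R_seed8.TH84.HC.Sidak

/-!
# Covering numbers of convex bodies with few normals at each point: the lemmas

`E d = EuclideanSpace ℝ (Fin d)`, `gm d` is the standard Gaussian measure on it (library
`Pool.Agent.PZ871.gm`).  Each `S_X : Prop` below is a lemma, with a proof in words.
-/

set_option autoImplicit false

open MeasureTheory Set Metric
open scoped Pointwise RealInnerProductSpace ENNReal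

namespace Pool.Agent.H266.FN

open Pool.Agent.H266.RP (E CoveredBy)
open Pool.Agent.PZ871 (gm)

/-- the probability that a standard normal random variable is in `(-r, r)` -/
noncomputable def G (r : ℝ) : ℝ := (ProbabilityTheory.gaussianReal 0 1).real (Ioo (-r) r)

/-- At each boundary point `x` of `K` there are at most `n` unit outer normals `u` of `K` such that
every vector `v` with `⟪u, v⟫ < 0` for all of them points from `x` into the interior of `K`. -/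
def Few {d : ℕ} (n : ℕ) (K : Set (E d)) : Prop :=
  ∀ x ∈ frontier K, ∃ s : Finset (E d), s.card ≤ n ∧
    (∀ u ∈ s, ‖u‖ = 1 ∧ ∀ y ∈ K, ⟪u, y⟫ ≤ ⟪u, x⟫) ∧
    ∀ v : E d, (∀ u ∈ s, ⟪u, v⟫ < 0) → ∃ t : ℝ, 0 < t ∧ x + t • v ∈ interior K

/-- The lower bound for the probability.  Proof.  Let `b = σ • x`, and
`F g = 1` if `⟪u, g⟫ < σ - η` for all `u ∈ s`, else `0`;
`W g = 1` if `|⟪u, g⟫| < σ - η` for all `u ∈ s`, else `0` (product of indicator functions).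
If `F (g + b) = 0`... in detail: `F' g = 1` iff `⟪u, g⟫ < σ ⟪u, x⟫ - η` for all `u`; then
`F' (g + b) = 1` iff `⟪u, g⟫ < - η` for all `u ∈ s`, and `F' ≥ W` as `⟪u, x⟫ ≥ 1`, `σ > 0`.
Cameron-Martin (`Pool.Agent.TH84.HC.cm_lint d b F'`):
`gm d {..} = ∫⁻ F' (g + b) = ∫⁻ ofReal (exp (⟪b, g⟫ - ‖b‖² / 2)) * F' g
 ≥ exp (-‖b‖²/2) ∫⁻ ofReal (exp ⟪b, g⟫) * W g`.  By symmetry (`W (-g) = W g`,
`Pool.Agent.TH84.HC.lint_neg`) the last integral is `∫⁻ ofReal (exp (-⟪b, g⟫)) * W g`, and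
`exp t + exp (-t) ≥ 2`, so it is `≥ ∫⁻ W g`.  `‖b‖ ≤ σ D`.  Sidak
(`Pool.Agent.TH84.HC.sidak s (fun _ t => indicator (Ioo (-r) r) 1 t) id`, `r = σ - η`; the
structure `LC` for this indicator function is easy: `Ioo (-r) r` is convex and symmetric):
`∫⁻ W ≥ G r ^ s.card`. -/
def S_PR : Prop := ∀ (d : ℕ) (s : Finset (E d)) (x : E d) (σ η D : ℝ), 0 ≤ η → η < σ →
  ‖x‖ ≤ D → (∀ u ∈ s, ‖u‖ = 1 ∧ 1 ≤ ⟪u, x⟫) →
  ENNReal.ofReal (Real.exp (-(σ ^ 2 * D ^ 2 / 2)) * G (σ - η) ^ s.card) ≤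
    gm d {g | ∀ u ∈ s, ⟪u, g⟫ < -η}

/-- Chebyshev.  `∫ ‖g‖² d(gm d) = d` (coordinates: `Pool.Agent.TH84.HC.lint_pi`, or
`ProbabilityTheory.map_pi_eq_stdGaussian`; or `covariance`/variance of `stdGaussian`). -/
def S_TAIL : Prop := ∀ (d : ℕ) (R : ℝ), 0 < R →
  gm d {g : E d | R < ‖g‖} ≤ ENNReal.ofReal (d / R ^ 2)

/-- Illumination implies covering, for compact convex sets.  Proof.  For `x ∈ K` with its `w, τ` the
set `U x = {z | z + τ w ∈ int K}` is open and contains `x`; for `z ∈ K ∩ U x` and `0 < t ≤ τ`: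
`z + t w ∈ int K` (`Convex.combo_self_interior_mem_interior`, or `Convex.add_smul_mem_interior`).
Finitely many `U x` cover `K`; let `t` be the minimum of their `τ`.  So for each `z ∈ K` there is
`w ∈ W` with `z + t w ∈ int K`.  `T = {- t w : w ∈ W}`.  For `L` arbitrary:
`k + l = (- t w) + ((k + t w) + l)` and `int K + l` is an open subset of `K + L` (this last step is
done at the end of `Pool/Agent/H266/RP/PIll.lean`, theorem `p_ill`). -/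
def S_ILC : Prop := ∀ (d : ℕ) (K : Set (E d)) (W : Finset (E d)), IsCompact K → Convex ℝ K →
  (∀ x ∈ K, ∃ w ∈ W, ∃ τ : ℝ, 0 < τ ∧ x + τ • w ∈ interior K) →
  ∃ T : Finset (E d), T.card ≤ W.card ∧ ∀ L : Set (E d), CoveredBy T (K + L)

/-- The number of small subsets.  Proof: a subset with at most `n` elements is the set of the values
`≠ none` of a map `Fin n → Option V`. -/
def S_SUB : Prop := ∀ (α : Type) (V : Finset α) (n : ℕ),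
  ((V.powerset.filter (fun B => B.card ≤ n)).card : ℝ) ≤ ((V.card : ℝ) + 1) ^ n

/-- The main estimate.  Proof.  `δ = η / (2 R)`, `V` a `δ`-net of the unit sphere with at most
`(1 + 4 R / η)^d` elements (`Pool.Agent.H266.RP.S_NET`, proved: `Pool.Agent.H266.RP.p_net`).
For a finite set `B` let
`C B = {g | ‖g‖ ≤ R ∧ ∀ b ∈ B, ⟪b, g⟫ < -η/2}`; `Ω = E d`, `P = gm d`, `𝓑` the set of the
`B ⊆ V` with at most `n` elements and `P (C B) ≥ p / 2`.  `S_GREEDY` (proved: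
`Pool.Agent.H266.RP.p_greedy`; `(1 - p/2)^M |𝓑| < 1` by `S_SUB`) gives `W`, `|W| ≤ M`,
which meets all `C B`, `B ∈ 𝓑`.
Let `x ∈ frontier K`, `s` its set of normals (`Few`).  For `u ∈ s`: `⟪u, x⟫ ≥ ⟪u, u⟫ = 1` since
`u ∈ closedBall 0 1 ⊆ K`; `‖x‖ ≤ D` (`frontier K ⊆ K`, `K` is closed).  `B` = the set of chosen
elements `b(u) ∈ V`, `‖u - b(u)‖ ≤ δ`.  If `‖g‖ ≤ R` and `⟪u, g⟫ < -η` for all `u ∈ s` then
`⟪b(u), g⟫ < -η + δ R = -η/2`; so `P (C B) ≥ p' - d/R² ≥ p / 2` by `S_PR`, `S_TAIL`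
(`p' = exp (..) G^(s.card) ≥ p` as `0 ≤ G ≤ 1`).  So some `g ∈ W` is in `C B`, and
`⟪u, g⟫ ≤ ⟪b(u), g⟫ + δ R < 0` for all `u ∈ s`, so `x + t g ∈ int K` for a `t > 0`.
For `x ∈ int K` any `w ∈ W` does (`W` is not empty, as `frontier K ≠ ∅`: `1 ≤ d`, `K` is bounded
and not empty; or use the line through a point).  Apply `S_ILC`. -/
def S_KEY : Prop := ∀ (d n M : ℕ) (σ η D R p : ℝ) (K : Set (E d)), 1 ≤ d → IsCompact K →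
  Convex ℝ K → closedBall 0 1 ⊆ K → K ⊆ closedBall 0 D → Few n K → 0 < η → η < σ → 0 < R →
  p = Real.exp (-(σ ^ 2 * D ^ 2 / 2)) * G (σ - η) ^ n → 2 * d / R ^ 2 ≤ p →
  (1 - p / 2) ^ M * ((1 + 4 * R / η) ^ d + 1) ^ n < 1 →
  ∃ T : Finset (E d), T.card ≤ M ∧ ∀ L : Set (E d), CoveredBy T (K + L)

/-- The parameters, first case.  Proof.  `η = σ - r`, `p₀ = exp (-(σ δ)²/2) G(r)^κ > 0`
(`G r > 0` since otherwise the hypothesis fails: `0 ^ κ = 0` for `κ > 0`), `q p₀ > 1`,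
`p ≥ p₀^d` as `n ≤ κ d`, `G r ≤ 1`; `R² = 2 d / p₀^d` (`d ≥ 1`), `M = ⌊q^d⌋`.
`(1 - p/2)^M ≤ exp (- p M / 2)`, `p M ≥ p₀^d (q^d - 1)` grows exponentially; and
`n log ((1 + 4R/η)^d + 1) ≤ κ d (d log (2 + 4R/η) + 1) = O(d³)`. -/
def S_AS1 : Prop := ∀ κ σ r δ q : ℝ, 0 < κ → 0 < r → r < σ → 0 ≤ δ → 1 < q →
  Real.exp (σ ^ 2 * δ ^ 2 / 2) < q * G r ^ κ →
  ∃ d₀ : ℕ, ∀ d : ℕ, d₀ ≤ d → ∀ n : ℕ, (n : ℝ) ≤ κ * d → ∃ (M : ℕ) (η R p : ℝ),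
    (M : ℝ) ≤ q ^ d ∧ 0 < η ∧ η < σ ∧ 0 < R ∧
    p = Real.exp (-(σ ^ 2 * (δ * √d) ^ 2 / 2)) * G (σ - η) ^ n ∧ 2 * d / R ^ 2 ≤ p ∧
    (1 - p / 2) ^ M * ((1 + 4 * R / η) ^ d + 1) ^ n < 1

/-- The parameters, second case.  Proof.  `r = √(2 log (2 κ d)) ≥ 1.17`, `η = 1/r`, `σ = r + 1/r`,
`σ² ≤ r² + 3`.  `G r ^ n ≥ (1 - exp(-r²/2))^n ≥ 1 - n/(2κd) ≥ 1/2` (`S_G2`, Bernoulli), so
`p ≥ (1/2) exp(-3D²/2) (2κd)^(-D²) = c₁ d^(-D²)`.  `R = √(2d/p)`,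
`M = ⌊(2/p) (n log ((1+4R/η)^d+1)) + 1⌋ + 1`; `log ((1+4R/η)^d+1) ≤ d log (2+4R/η) ≤ C' d²`
(`log R ≤ C'' + C'' log d`, `log d ≤ d`; also `1/η = r ≤ C d`), `n ≤ κ d`. -/
def S_AS2 : Prop := ∀ κ D : ℝ, 1 ≤ κ → 1 ≤ D → ∃ C : ℝ, 0 < C ∧
  ∀ d : ℕ, 1 ≤ d → ∀ n : ℕ, (n : ℝ) ≤ κ * d → ∃ (M : ℕ) (σ η R p : ℝ),
    (M : ℝ) ≤ C * (d : ℝ) ^ (D ^ 2 + 3) ∧ 0 < η ∧ η < σ ∧ 0 < R ∧
    p = Real.exp (-(σ ^ 2 * D ^ 2 / 2)) * G (σ - η) ^ n ∧ 2 * d / R ^ 2 ≤ p ∧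
    (1 - p / 2) ^ M * ((1 + 4 * R / η) ^ d + 1) ^ n < 1

/-- `P(|N(0,1)| < 1) = 0.6827...`.  Proof: `exp (-x²/2) ≥ 1 - x²/2 + x⁴/8 - x⁶/48`, integrate over
`[-1, 1]`: `≥ 2 (1 - 1/6 + 1/40 - 1/336) = 1.71071...`, and `√(2π) < 2.5067`. -/
def S_G1 : Prop := 0.68 ≤ G 1

/-- Gaussian tails.  Proof: `P(N ≥ r) ≤ exp(-r²/2) / 2`; or with a weaker argument, e.g.
`∫_{t ≥ r} exp(-t²/2) dt = ∫_{u ≥ 0} exp(-(u+r)²/2) du ≤ exp(-r²/2) ∫_{u ≥ 0} exp(-u²/2) du`. -/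
def S_G2 : Prop := ∀ r : ℝ, 0 < r → 1 - Real.exp (-(r ^ 2 / 2)) ≤ G r

/-- Polytopes.  Proof.  `P` is closed.  Let `x ∈ frontier P`, so `x ∈ P`;
`s` = the set of the `‖a i‖⁻¹ • a i` with `⟪a i, x⟫ = b i`, at most `n` elements.
If `⟪u, v⟫ < 0` for `u ∈ s`, then for small `t > 0` all `⟪a i, x + t v⟫ < b i`
(finitely many `i`: active ones for all `t > 0`, the others for small `t`), and the set where all
inequalities are strict is open and contained in `P`. -/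
def S_POLY : Prop := ∀ (d n : ℕ) (ι : Type) [Fintype ι] (a : ι → E d) (b : ι → ℝ),
  (∀ i, a i ≠ 0) →
  (∀ y : E d, (∀ i, ⟪a i, y⟫ ≤ b i) → {i | ⟪a i, y⟫ = b i}.ncard ≤ n) →
  Few n {y : E d | ∀ i, ⟪a i, y⟫ ≤ b i}

/-- The theorem.  Proof from `S_KEY`, `S_AS1`, `S_AS2`, `S_G1`, `S_G2`.
(1) `κ = 1`, `r = 1`, `σ = 1.001`, `δ = 3/4`, `q = 1.95`: `exp (σ² 9/32) < 1.3256 < 1.95 * 0.68`.
(2) `r` with `q G(r)^κ > 1` (by `S_G2`, `G r → 1`; continuity of `x ↦ x ^ κ` at `1`), `σ = r + 1`,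
`δ > 0` small (also `1 < q`).  (3) `S_AS2`. -/
def S_FIN : Prop :=
  (∃ d₀ : ℕ, ∀ d : ℕ, d₀ ≤ d → ∀ K : Set (E d), IsCompact K → Convex ℝ K →
    closedBall 0 1 ⊆ K → K ⊆ closedBall 0 (3 / 4 * √d) → Few d K →
    ∃ T : Finset (E d), (T.card : ℝ) ≤ 1.95 ^ d ∧ ∀ L : Set (E d), CoveredBy T (K + L)) ∧
  (∀ κ q : ℝ, 0 < κ → 1 < q → ∃ δ : ℝ, 0 < δ ∧ ∃ d₀ : ℕ, ∀ d : ℕ, d₀ ≤ d →
    ∀ K : Set (E d), IsCompact K → Convex ℝ K →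
    closedBall 0 1 ⊆ K → K ⊆ closedBall 0 (δ * √d) → ∀ n : ℕ, (n : ℝ) ≤ κ * d → Few n K →
    ∃ T : Finset (E d), (T.card : ℝ) ≤ q ^ d ∧ ∀ L : Set (E d), CoveredBy T (K + L)) ∧
  ∀ κ D : ℝ, 1 ≤ κ → 1 ≤ D → ∃ C : ℝ, ∀ d : ℕ, 1 ≤ d → ∀ K : Set (E d), IsCompact K →
    Convex ℝ K → closedBall 0 1 ⊆ K → K ⊆ closedBall 0 D →
    ∀ n : ℕ, (n : ℝ) ≤ κ * d → Few n K →
    ∃ T : Finset (E d), (T.card : ℝ) ≤ C * (d : ℝ) ^ (D ^ 2 + 3) ∧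
      ∀ L : Set (E d), CoveredBy T (K + L)

end Pool.Agent.H266.FN
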