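import Pool.Agent.H266.FN.Stm

/-!
# Covering numbers of convex bodies with few normals at each point: one more lemma
-/

set_option autoImplicit false

open MeasureTheory Set Metric
open scoped Pointwise RealInnerProductSpace ENNReal

namespace Pool.Agent.H266.FN

open Pool.Agent.H266.RP (E CoveredBy)
open Pool.Agent.PZ871 (gm)

/-- The parameters, second case, for all `n`.  Proof.  `r = √(2 log (2 n)) ≥ 1.17` (`n ≥ 1`),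
`η = 1/r`, `σ = r + 1/r`, so `σ - η = r` and `σ² ≤ r² + 3`.
`G r ^ n ≥ (1 - exp(-r²/2))^n ≥ 1 - n/(2n) = 1/2` (`S_G2`, Bernoulli `one_add_mul_le_pow`), so
`p ≥ (1/2) exp(-3D²/2) (2n)^(-D²) = c₁ n^(-D²)`.  `R = √(2d/p)` (so `2 d / R² = p`),
`M = ⌊(2/p) n d log (2+4R/η)⌋ + 1`.  `(1-p/2)^M ≤ exp(-pM/2) < exp(-n d log (2+4R/η))`, and
`(1+x)^d+1 ≤ (2+x)^d` for `x ≥ 0`, `d ≥ 1`.
Size of `M`: `R ≤ √(2d/c₁) n^(D²/2)`, `4R/η = 4Rr`, `r ≤ 2n`, so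
`log (2+4R/η) ≤ C₃ (1+log(n d))`, and `1/p ≤ n^(D²)/c₁`. -/
def S_AS3 : Prop := ∀ D : ℝ, 1 ≤ D → ∃ C : ℝ, 0 < C ∧
  ∀ d n : ℕ, 1 ≤ d → 1 ≤ n → ∃ (M : ℕ) (σ η R p : ℝ),
    (M : ℝ) ≤ C * (n : ℝ) ^ (D ^ 2 + 1) * d * (1 + Real.log (n * d)) ∧ 0 < η ∧ η < σ ∧ 0 < R ∧
    p = Real.exp (-(σ ^ 2 * D ^ 2 / 2)) * G (σ - η) ^ n ∧ 2 * d / R ^ 2 ≤ p ∧
    (1 - p / 2) ^ M * ((1 + 4 * R / η) ^ d + 1) ^ n < 1

end Pool.Agent.H266.FN
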