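import Pool.Agent.H266.FN.Stm2

/-!
# Covering numbers of convex bodies with few normals at each point: bodies with wide tangent cones
-/

set_option autoImplicit false

open MeasureTheory Set Metric
open scoped Pointwise RealInnerProductSpace ENNReal

namespace Pool.Agent.H266.FN

open Pool.Agent.H266.RP (E CoveredBy)
open Pool.Agent.PZ871 (gm)

/-- At each boundary point `x` of `K` there are at most `n` unit outer normals `u` of `K` such that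
every vector `v` with `⟪u, v⟫ < 0` for all of them points from `x` into the interior of `K`, and for
some `b` of norm at most `D` the ball of radius `1` with centre `x - b` is in the tangent cone
`{y | ∀ u, ⟪u, y - x⟫ ≤ 0}`. -/
def Wide {d : ℕ} (n : ℕ) (D : ℝ) (K : Set (E d)) : Prop :=
  ∀ x ∈ frontier K, ∃ s : Finset (E d), s.card ≤ n ∧
    (∀ u ∈ s, ‖u‖ = 1 ∧ ∀ y ∈ K, ⟪u, y⟫ ≤ ⟪u, x⟫) ∧
    (∃ b : E d, ‖b‖ ≤ D ∧ ∀ u ∈ s, 1 ≤ ⟪u, b⟫) ∧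
    ∀ v : E d, (∀ u ∈ s, ⟪u, v⟫ < 0) → ∃ t : ℝ, 0 < t ∧ x + t • v ∈ interior K

/-- as `S_KEY`, for `Wide n D K` -/
def S_KEYW : Prop := ∀ (d n M : ℕ) (σ η D R p : ℝ) (K : Set (E d)), 1 ≤ d → IsCompact K →
  Convex ℝ K → Wide n D K → 0 < η → η < σ → 0 < R →
  p = Real.exp (-(σ ^ 2 * D ^ 2 / 2)) * G (σ - η) ^ n → 2 * d / R ^ 2 ≤ p →
  (1 - p / 2) ^ M * ((1 + 4 * R / η) ^ d + 1) ^ n < 1 →
  ∃ T : Finset (E d), T.card ≤ M ∧ ∀ L : Set (E d), CoveredBy T (K + L)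

/-- as `S_FIN` (first two parts), for `Wide n D K` -/
def S_FINW : Prop :=
  (∃ d₀ : ℕ, ∀ d : ℕ, d₀ ≤ d → ∀ K : Set (E d), IsCompact K → Convex ℝ K →
    Wide d (3 / 4 * √d) K →
    ∃ T : Finset (E d), (T.card : ℝ) ≤ 1.95 ^ d ∧ ∀ L : Set (E d), CoveredBy T (K + L)) ∧
  (∀ κ q : ℝ, 0 < κ → 1 < q → ∃ δ : ℝ, 0 < δ ∧ ∃ d₀ : ℕ, ∀ d : ℕ, d₀ ≤ d →
    ∀ K : Set (E d), IsCompact K → Convex ℝ K → ∀ n : ℕ, (n : ℝ) ≤ κ * d → Wide n (δ * √d) K →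
    ∃ T : Finset (E d), (T.card : ℝ) ≤ q ^ d ∧ ∀ L : Set (E d), CoveredBy T (K + L))

theorem fin3w (hkey : S_KEYW) (has3 : S_AS3) (D : ℝ) (hD : 1 ≤ D) : ∃ C : ℝ, 0 < C ∧
    ∀ d n : ℕ, 1 ≤ d → 1 ≤ n → ∀ K : Set (E d), IsCompact K → Convex ℝ K → Wide n D K →
      ∃ T : Finset (E d),
        (T.card : ℝ) ≤ C * (n : ℝ) ^ (D ^ 2 + 1) * d * (1 + Real.log (n * d)) ∧
        ∀ L : Set (E d), CoveredBy T (K + L) := by
  obtain ⟨C, hC, h⟩ := has3 D hD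
  refine ⟨C, hC, fun d n hd hn K hK hKc hF => ?_⟩
  obtain ⟨M, σ, η, R, p, hM, hη, hησ, hR, hp, hpR, hlt⟩ := h d n hd hn
  obtain ⟨T, hT, hcov⟩ := hkey d n M σ η D R p K hd hK hKc hF hη hησ hR hp hpR hlt
  exact ⟨T, le_trans (by exact_mod_cast hT) hM, hcov⟩

/-- bodies between balls -/
theorem wide_of_balls {d : ℕ} (n : ℕ) (D : ℝ) (K : Set (E d)) (hcl : IsClosed K)
    (h1 : closedBall 0 1 ⊆ K) (h2 : K ⊆ closedBall 0 D) (hF : Few n K) : Wide n D K := by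
  intro x hx
  obtain ⟨s, hs, hu, hv⟩ := hF x hx
  refine ⟨s, hs, hu, ⟨x, ?_, fun u hus => ?_⟩, hv⟩
  · have := h2 (hcl.frontier_subset hx)
    rwa [mem_closedBall_zero_iff] at this
  · have h3 := (hu u hus).2 u (h1 (by rw [mem_closedBall_zero_iff, (hu u hus).1]))
    rwa [real_inner_self_eq_norm_sq, (hu u hus).1, one_pow] at h3

end Pool.Agent.H266.FN
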